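import Pool.Agent.KRE.Stmts
import Pool.Agent.Lib_helper51.SubMean

/-!
# The exact order of `1 - κ_p`: basic lemmas
-/

set_option autoImplicit false

namespace Pool.Agent.KRE

open Complex MeasureTheory Set Filter Topology Metric
open Pool.Agent.KRC (An)

namespace Bas

theorem Pm_zero (z : ℂ) : Pm 0 z = 1 := by simp [Pm]

theorem Pm_cons (a : ℂ) (s : Multiset ℂ) (z : ℂ) : Pm (a ::ₘ s) z = (z - a) * Pm s z := by
  simp [Pm]

theorem Pr_zero (ρ : ℝ) (z : ℂ) : Pr 0 ρ z = 1 := by simp [Pr]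

theorem Pr_cons (a : ℂ) (s : Multiset ℂ) (ρ : ℝ) (z : ℂ) :
    Pr (a ::ₘ s) ρ z = ((ρ : ℂ) ^ 2 - (starRingEnd ℂ) a * z) / ρ * Pr s ρ z := by
  simp [Pr]

theorem Pm_diff (s : Multiset ℂ) : Differentiable ℂ (Pm s) := by
  induction s using Multiset.induction_on with
  | empty =>
    have : Pm 0 = fun _ => (1 : ℂ) := funext Pm_zero
    rw [this]
    exact differentiable_const _
  | cons a s ih =>
    have : Pm (a ::ₘ s) = fun z => (z - a) * Pm s z := funext (Pm_cons a s)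
    rw [this]
    exact (differentiable_id.sub_const a).mul ih

theorem Pr_diff (s : Multiset ℂ) (ρ : ℝ) : Differentiable ℂ (Pr s ρ) := by
  induction s using Multiset.induction_on with
  | empty =>
    have : Pr 0 ρ = fun _ => (1 : ℂ) := funext (Pr_zero ρ)
    rw [this]
    exact differentiable_const _
  | cons a s ih =>
    have : Pr (a ::ₘ s) ρ = fun z => ((ρ : ℂ) ^ 2 - (starRingEnd ℂ) a * z) / ρ * Pr s ρ z :=
      funext (Pr_cons a s ρ)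
    rw [this]
    refine Differentiable.mul ?_ ih
    fun_prop

theorem Pm_ne {c : ℝ} {s : Multiset ℂ} (hs : ∀ a ∈ s, ‖a‖ ≤ c) {z : ℂ} (hz : c < ‖z‖) :
    Pm s z ≠ 0 := by
  induction s using Multiset.induction_on with
  | empty => rw [Pm_zero]; exact one_ne_zero
  | cons a s ih =>
    rw [Pm_cons]
    refine mul_ne_zero ?_ (ih fun b hb => hs b (Multiset.mem_cons_of_mem hb))
    intro h
    rw [sub_eq_zero.1 h] at hz
    exact absurd (hs a (Multiset.mem_cons_self a s)) (not_le.2 hz)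

theorem Pr_ne {c ρ : ℝ} {s : Multiset ℂ} (hs : ∀ a ∈ s, ‖a‖ ≤ c) (h0 : 0 < ρ) (hc : c < ρ)
    {z : ℂ} (hz : ‖z‖ ≤ ρ) : Pr s ρ z ≠ 0 := by
  induction s using Multiset.induction_on with
  | empty => rw [Pr_zero]; exact one_ne_zero
  | cons a s ih =>
    rw [Pr_cons]
    refine mul_ne_zero (div_ne_zero ?_ (by exact_mod_cast h0.ne'))
      (ih fun b hb => hs b (Multiset.mem_cons_of_mem hb))
    intro h
    have h1 : (ρ : ℂ) ^ 2 = (starRingEnd ℂ) a * z := sub_eq_zero.1 h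
    have h2 := congrArg norm h1
    rw [norm_pow, norm_real, Real.norm_of_nonneg h0.le, norm_mul, RCLike.norm_conj] at h2
    have h3 := hs a (Multiset.mem_cons_self a s)
    have h4 : ‖a‖ * ‖z‖ ≤ ‖a‖ * ρ := mul_le_mul_of_nonneg_left hz (norm_nonneg a)
    have h5 : ‖a‖ * ρ < ρ * ρ := by
      apply mul_lt_mul_of_pos_right _ h0
      linarith
    have h6 : ρ ^ 2 = ρ * ρ := sq ρ
    linarith

theorem norm_bl {ρ : ℝ} {a w : ℂ} (hw : ‖w‖ = ρ) :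
    ‖(ρ : ℂ) ^ 2 - (starRingEnd ℂ) a * w‖ = ρ * ‖w - a‖ := by
  have h1 : (ρ : ℂ) ^ 2 = w * (starRingEnd ℂ) w := by
    rw [mul_conj, normSq_eq_norm_sq, hw]
    push_cast
    ring
  have h2 : (ρ : ℂ) ^ 2 - (starRingEnd ℂ) a * w = w * (starRingEnd ℂ) (w - a) := by
    rw [h1, map_sub]
    ring
  rw [h2, norm_mul, norm_conj, hw]

/-- the reflected product has the same modulus on the circle -/
theorem norm_Pr {ρ : ℝ} (h0 : 0 < ρ) (s : Multiset ℂ) {w : ℂ} (hw : ‖w‖ = ρ) :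
    ‖Pr s ρ w‖ = ‖Pm s w‖ := by
  induction s using Multiset.induction_on with
  | empty => rw [Pr_zero, Pm_zero]
  | cons a s ih =>
    rw [Pr_cons, Pm_cons, norm_mul, norm_mul, ih, norm_div, norm_bl hw, norm_real,
      Real.norm_of_nonneg h0.le, mul_div_cancel_left₀ _ h0.ne']

/-- the identity for Blaschke factors -/
theorem bl_ident (ρ : ℝ) (a w : ℂ) :
    ‖(ρ : ℂ) ^ 2 - (starRingEnd ℂ) a * w‖ ^ 2 = ρ ^ 2 * ‖w - a‖ ^ 2 +
      (ρ ^ 2 - ‖w‖ ^ 2) * (ρ ^ 2 - ‖a‖ ^ 2) := by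
  have h : (ρ : ℂ) ^ 2 = ((ρ ^ 2 : ℝ) : ℂ) := by push_cast; ring
  rw [h, ← normSq_eq_norm_sq, ← normSq_eq_norm_sq, ← normSq_eq_norm_sq, ← normSq_eq_norm_sq]
  simp only [normSq_apply, sub_re, sub_im, mul_re, mul_im, conj_re, conj_im, ofReal_re, ofReal_im]
  ring

/-- one factor -/
theorem bl_le {η ρ : ℝ} (hη : 0 < η) (hη2 : η ≤ 1 / 2) (hρ : 1 - η / 2 ≤ ρ) {a w : ℂ}
    (ha : ‖a‖ ≤ 1 - η) (hw : ‖w‖ = ρ - η / 8) :
    ‖((ρ : ℂ) ^ 2 - (starRingEnd ℂ) a * w) / ρ‖ ≤ 5 / 3 * ‖w - a‖ := by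
  have h0 : 0 < ρ := by linarith
  rw [norm_div, norm_real, Real.norm_of_nonneg h0.le, div_le_iff₀ h0]
  obtain ⟨x, hx⟩ : ∃ x : ℝ, x = ‖w‖ - ‖a‖ := ⟨_, rfl⟩
  have hx1 : 3 * η / 8 ≤ x := by rw [hx, hw]; linarith
  have hx0 : 0 < x := by linarith
  have hxw : x ≤ ‖w - a‖ := by rw [hx]; exact norm_sub_norm_le w a
  have ha0 := norm_nonneg a
  have haw : ‖a‖ = ρ - η / 8 - x := by rw [hx, hw]; ring
  apply le_of_sq_le_sq _ (by positivity)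
  rw [bl_ident]
  have e1 : (ρ ^ 2 - ‖w‖ ^ 2) ≤ ρ * η / 4 := by
    rw [hw]
    nlinarith
  have e1' : 0 ≤ ρ ^ 2 - ‖w‖ ^ 2 := by
    rw [hw]
    nlinarith
  have e2 : (ρ ^ 2 - ‖a‖ ^ 2) ≤ 2 * ρ * (x + η / 8) := by
    rw [haw]
    nlinarith [sq_nonneg (x + η / 8)]
  have e2' : 0 ≤ ρ ^ 2 - ‖a‖ ^ 2 := by
    have : ‖a‖ ≤ ρ := by linarith
    nlinarith
  have e3 : (ρ ^ 2 - ‖w‖ ^ 2) * (ρ ^ 2 - ‖a‖ ^ 2) ≤ ρ * η / 4 * (2 * ρ * (x + η / 8)) :=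
    mul_le_mul e1 e2 e2' (by positivity)
  have e4 : η / 4 * (2 * (x + η / 8)) ≤ 16 / 9 * x ^ 2 := by
    have h5 : η ≤ 8 / 3 * x := by linarith
    have h6 : η * x ≤ 8 / 3 * x * x := mul_le_mul_of_nonneg_right h5 hx0.le
    have h7 : η * η ≤ 8 / 3 * x * (8 / 3 * x) := mul_le_mul h5 h5 hη.le (by positivity)
    nlinarith
  have e5 : ρ * η / 4 * (2 * ρ * (x + η / 8)) ≤ 16 / 9 * (ρ ^ 2 * ‖w - a‖ ^ 2) := by
    have h5 : ρ * η / 4 * (2 * ρ * (x + η / 8)) = ρ ^ 2 * (η / 4 * (2 * (x + η / 8))) := by ring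
    have h6 : x ^ 2 ≤ ‖w - a‖ ^ 2 := pow_le_pow_left₀ hx0.le hxw 2
    rw [h5]
    calc ρ ^ 2 * (η / 4 * (2 * (x + η / 8))) ≤ ρ ^ 2 * (16 / 9 * x ^ 2) :=
          mul_le_mul_of_nonneg_left e4 (by positivity)
      _ ≤ ρ ^ 2 * (16 / 9 * ‖w - a‖ ^ 2) := by gcongr
      _ = _ := by ring
  have e6 : (5 / 3 * ‖w - a‖ * ρ) ^ 2 = ρ ^ 2 * ‖w - a‖ ^ 2 + 16 / 9 * (ρ ^ 2 * ‖w - a‖ ^ 2) := by
    ring
  rw [e6]
  linarith

/-- the reflected product is not much larger on the circle of radius `ρ - η/8` -/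
theorem Pr_le {η ρ : ℝ} (hη : 0 < η) (hη2 : η ≤ 1 / 2) (hρ : 1 - η / 2 ≤ ρ) (s : Multiset ℂ)
    (hs : ∀ a ∈ s, ‖a‖ ≤ 1 - η) {w : ℂ} (hw : ‖w‖ = ρ - η / 8) :
    ‖Pr s ρ w‖ ≤ (5 / 3) ^ (Multiset.card s) * ‖Pm s w‖ := by
  induction s using Multiset.induction_on with
  | empty => simp [Pr_zero, Pm_zero]
  | cons a s ih =>
    rw [Pr_cons, Pm_cons, norm_mul, norm_mul, Multiset.card_cons, pow_succ]
    have h1 := bl_le hη hη2 hρ (hs a (Multiset.mem_cons_self a s)) hw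
    have h2 := ih fun b hb => hs b (Multiset.mem_cons_of_mem hb)
    calc ‖((ρ : ℂ) ^ 2 - (starRingEnd ℂ) a * w) / ρ‖ * ‖Pr s ρ w‖
        ≤ (5 / 3 * ‖w - a‖) * ((5 / 3) ^ (Multiset.card s) * ‖Pm s w‖) :=
          mul_le_mul h1 h2 (norm_nonneg _) (by positivity)
      _ = _ := by ring

/-- approximation on the circle by the real part of an entire function -/
theorem approx {φ : ℂ → ℝ} {ρ : ℝ} (hρ : 0 < ρ) (hφ : ContinuousOn φ (sphere 0 ρ)) {ε : ℝ}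
    (hε : 0 < ε) :
    ∃ H : ℂ → ℂ, Differentiable ℂ H ∧ ∀ w : ℂ, ‖w‖ = ρ → |(H w).re - φ w| ≤ ε := by
  obtain ⟨g, hg⟩ := ContinuousMap.exists_restrict_eq (isClosed_sphere (x := (0 : ℂ)) (ε := ρ))
    ⟨fun x : sphere (0 : ℂ) ρ => φ x, continuousOn_iff_continuous_domRestrict.1 hφ⟩
  obtain ⟨H, hH, hHa⟩ := Pool.Agent.Lib_helper51.exists_entire_approx g g.continuous 0 hρ hε
  refine ⟨H, hH, fun w hw => ?_⟩
  have hw' : w ∈ sphere (0 : ℂ) ρ := mem_sphere_zero_iff_norm.2 hw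
  have h1 : g w = φ w := by
    exact DFunLike.congr_fun hg ⟨w, hw'⟩
  rw [← h1]
  exact hHa w hw'

/-- maximum principle for the real part -/
theorem re_le {H : ℂ → ℂ} {ρ M : ℝ} (hc : ContinuousOn H (closedBall 0 ρ))
    (hd : DifferentiableOn ℂ H (ball 0 ρ)) (hρ : 0 < ρ) (h : ∀ w : ℂ, ‖w‖ = ρ → (H w).re ≤ M)
    {z : ℂ} (hz : ‖z‖ ≤ ρ) : (H z).re ≤ M := by
  have hD : DiffContOnCl ℂ (fun w => cexp (H w)) (ball 0 ρ) := by
    refine ⟨hd.cexp, ?_⟩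
    rw [closure_ball _ hρ.ne']
    exact hc.cexp
  have h1 := Complex.norm_le_of_forall_mem_frontier_norm_le (isBounded_ball) hD
    (C := Real.exp M) (by
      intro w hw
      rw [frontier_ball _ hρ.ne', mem_sphere_zero_iff_norm] at hw
      rw [Complex.norm_exp]
      exact Real.exp_le_exp.2 (h w hw))
    (z := z) (by
      rw [closure_ball _ hρ.ne', mem_closedBall_zero_iff]
      exact hz)
  rw [Complex.norm_exp] at h1
  exact Real.exp_le_exp.1 h1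

end Bas

end Pool.Agent.KRE
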