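import Pool.Agent.KRE.Bas
import Pool.Agent.KRB.Ph
import Pool.Agent.KRC.Pck

/-!
# The exact order of `1 - κ_p`: module CHI (the function `χ`)
-/

set_option autoImplicit false

namespace Pool.Agent.KRE

open Complex MeasureTheory Set Filter Topology Metric
open Pool.Agent.KRC (An)

namespace CHIAux

/-- the identity behind the Moebius transformations of the disc -/
theorem ident (f p b : ℂ) :
    ‖p - (starRingEnd ℂ) b * f‖ ^ 2 - ‖f - b * p‖ ^ 2 =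
      (1 - ‖b‖ ^ 2) * (‖p‖ ^ 2 - ‖f‖ ^ 2) := by
  rw [← normSq_eq_norm_sq, ← normSq_eq_norm_sq, ← normSq_eq_norm_sq, ← normSq_eq_norm_sq,
    ← normSq_eq_norm_sq]
  simp only [normSq_apply, sub_re, sub_im, mul_re, mul_im, conj_re, conj_im]
  ring

theorem lt_aux {f p b : ℂ} (hb : ‖b‖ < 1) (h : ‖f‖ < ‖p‖) :
    ‖f - b * p‖ < ‖p - (starRingEnd ℂ) b * f‖ := by
  have h1 := ident f p b
  have h2 : 0 < (1 - ‖b‖ ^ 2) * (‖p‖ ^ 2 - ‖f‖ ^ 2) := by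
    apply mul_pos
    · nlinarith [norm_nonneg b]
    · nlinarith [norm_nonneg f]
  apply lt_of_pow_lt_pow_left₀ 2 (norm_nonneg _)
  linarith

theorem ne_aux {f p b : ℂ} (hb : ‖b‖ < 1) (h : ‖f‖ < ‖p‖) :
    p - (starRingEnd ℂ) b * f ≠ 0 := by
  rw [← norm_pos_iff]
  exact (norm_nonneg _).trans_lt (lt_aux hb h)

/-- the last part, with the number `v` -/
theorem last {f p b v : ℂ} (hb : ‖b‖ < 1) (h : ‖f‖ < ‖p‖) (hv : ‖v‖ = 1) (hbv : b = ‖b‖ * v) :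
    ‖f - v * p‖ * (1 - ‖(f - b * p) / (p - (starRingEnd ℂ) b * f)‖) ≤ 8 * (‖p‖ - ‖f‖) := by
  obtain ⟨g, hg⟩ : ∃ g : ℂ, g = p - (starRingEnd ℂ) b * f := ⟨_, rfl⟩
  obtain ⟨k, hk⟩ : ∃ k : ℂ, k = f - b * p := ⟨_, rfl⟩
  have hlt := lt_aux hb h
  have hid := ident f p b
  rw [← hg, ← hk] at hlt hid ⊢
  have hg0 : 0 < ‖g‖ := (norm_nonneg _).trans_lt hlt
  have hb0 := norm_nonneg b
  have hf0 := norm_nonneg f
  have hk0 := norm_nonneg k
  -- the lower bound of `‖g‖`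
  have hgl : ‖p‖ - ‖b‖ * ‖f‖ ≤ ‖g‖ := by
    have h1 := norm_sub_norm_le p ((starRingEnd ℂ) b * f)
    rw [norm_mul, RCLike.norm_conj, ← hg] at h1
    exact h1
  -- the upper bound of `‖f - v p‖`
  have hup : ‖f - v * p‖ ≤ 2 * ‖g‖ := by
    have hvv : (starRingEnd ℂ) v * v = 1 := by
      rw [← normSq_eq_conj_mul_self, normSq_eq_norm_sq, hv]
      norm_num
    have e1 : f - v * p = -(v * (g - (1 - ‖b‖ : ℝ) * ((starRingEnd ℂ) v * f))) := by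
      have e2 : (starRingEnd ℂ) b = ‖b‖ * (starRingEnd ℂ) v := by
        conv_lhs => rw [hbv]
        rw [map_mul, conj_ofReal]
      rw [hg, e2]
      push_cast
      linear_combination (-f) * hvv
    have e3 : ‖f - v * p‖ ≤ ‖g‖ + (1 - ‖b‖) * ‖f‖ := by
      rw [e1, norm_neg, norm_mul, hv, one_mul]
      refine (norm_sub_le _ _).trans ?_
      rw [norm_mul, norm_mul, RCLike.norm_conj, hv, one_mul, norm_real,
        Real.norm_of_nonneg (by linarith)]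
    nlinarith
  -- `‖g‖ (1 - ‖χ‖) ≤ 4 (‖p‖ - ‖f‖)`
  have hmain : ‖g‖ * (1 - ‖k / g‖) ≤ 4 * (‖p‖ - ‖f‖) := by
    have e1 : ‖g‖ * (1 - ‖k / g‖) = ‖g‖ - ‖k‖ := by
      rw [norm_div]
      field_simp
    rw [e1]
    have e2 : ‖g‖ * (‖g‖ - ‖k‖) ≤ ‖g‖ * (4 * (‖p‖ - ‖f‖)) := by
      have e3 : ‖g‖ * (‖g‖ - ‖k‖) ≤ (1 - ‖b‖ ^ 2) * (‖p‖ ^ 2 - ‖f‖ ^ 2) := by
        rw [← hid]
        nlinarith
      have e4 : (1 - ‖b‖ ^ 2) * (‖p‖ ^ 2 - ‖f‖ ^ 2) ≤ 4 * ((1 - ‖b‖) * ‖p‖ * (‖p‖ - ‖f‖)) := by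
        have e5 : (1 - ‖b‖ ^ 2) * (‖p‖ ^ 2 - ‖f‖ ^ 2) =
            ((1 - ‖b‖) * (‖p‖ - ‖f‖)) * ((1 + ‖b‖) * (‖p‖ + ‖f‖)) := by ring
        have e6 : 0 ≤ (1 - ‖b‖) * (‖p‖ - ‖f‖) := mul_nonneg (by linarith) (by linarith)
        have e7 : (1 + ‖b‖) * (‖p‖ + ‖f‖) ≤ 2 * (2 * ‖p‖) :=
          mul_le_mul (by linarith) (by linarith) (by positivity) (by norm_num)
        rw [e5]
        calc ((1 - ‖b‖) * (‖p‖ - ‖f‖)) * ((1 + ‖b‖) * (‖p‖ + ‖f‖))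
            ≤ ((1 - ‖b‖) * (‖p‖ - ‖f‖)) * (2 * (2 * ‖p‖)) := mul_le_mul_of_nonneg_left e7 e6
          _ = 4 * ((1 - ‖b‖) * ‖p‖ * (‖p‖ - ‖f‖)) := by ring
      have e8 : (1 - ‖b‖) * ‖p‖ ≤ ‖g‖ := by
        refine le_trans ?_ hgl
        nlinarith
      have e9 : (1 - ‖b‖) * ‖p‖ * (‖p‖ - ‖f‖) ≤ ‖g‖ * (‖p‖ - ‖f‖) :=
        mul_le_mul_of_nonneg_right e8 (by linarith)
      linarith
    exact le_of_mul_le_mul_left e2 hg0
  have hx : 0 ≤ 1 - ‖k / g‖ := by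
    rw [norm_div, sub_nonneg]
    exact div_le_one_of_le₀ hlt.le hg0.le
  calc ‖f - v * p‖ * (1 - ‖k / g‖) ≤ (2 * ‖g‖) * (1 - ‖k / g‖) :=
        mul_le_mul_of_nonneg_right hup hx
    _ = 2 * (‖g‖ * (1 - ‖k / g‖)) := by ring
    _ ≤ 2 * (4 * (‖p‖ - ‖f‖)) := by linarith
    _ = 8 * (‖p‖ - ‖f‖) := by ring

/-- circles -/
theorem circ {χ : ℂ → ℂ} {c r R : ℝ} (hR : 0 < R) (hr0 : 0 < r) (hr1 : r ≤ 1) (hc : c ≤ r - R)
    (h1 : r + R ≤ 1) (hd : DifferentiableOn ℂ χ (An c)) (hb : ∀ z ∈ An c, ‖χ z‖ < 1) (t t' : ℝ) :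
    ‖χ (r * cexp (t' * I)) - χ (r * cexp (t * I))‖ ≤
      (1 - ‖χ (r * cexp (t * I))‖) * (Real.exp (2 / R * |t - t'|) - 1) := by
  have hnorm : ∀ t : ℝ, ‖(r : ℂ) * cexp (t * I)‖ = r := by
    intro t
    rw [norm_mul, Complex.norm_exp_ofReal_mul_I, mul_one, Complex.norm_real,
      Real.norm_of_nonneg hr0.le]
  have hsub : ∀ t : ℝ, ball ((r : ℂ) * cexp (t * I)) R ⊆ An c := by
    intro t z hz
    rw [mem_ball, dist_eq_norm] at hz
    have e1 := norm_sub_norm_le ((r : ℂ) * cexp (t * I)) z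
    have e2 := norm_sub_norm_le z ((r : ℂ) * cexp (t * I))
    rw [norm_sub_rev] at e1
    rw [hnorm] at e1 e2
    exact ⟨by linarith, by linarith⟩
  have hA : 0 < 2 / R := by positivity
  have hcur : ∀ t : ℝ, HasDerivAt (fun s : ℝ => (r : ℂ) * cexp (s * I))
      ((r : ℂ) * (cexp (t * I) * I)) t := by
    intro t
    have h0 : HasDerivAt (fun s : ℝ => (s : ℂ) * I) I t := by
      have := (Complex.ofRealCLM.hasDerivAt (x := t)).mul_const I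
      simpa using this
    exact (h0.cexp).const_mul _
  have hV : ∀ t : ℝ, HasDerivAt (fun s : ℝ => χ ((r : ℂ) * cexp (s * I)))
      (deriv χ ((r : ℂ) * cexp (t * I)) * ((r : ℂ) * (cexp (t * I) * I))) t := by
    intro t
    have hda : DifferentiableAt ℂ χ ((r : ℂ) * cexp (t * I)) :=
      (hd.mono (hsub t)).differentiableAt (isOpen_ball.mem_nhds (mem_ball_self hR))
    exact HasDerivAt.comp t hda.hasDerivAt (hcur t)
  have hVb : ∀ t : ℝ, ‖deriv χ ((r : ℂ) * cexp (t * I)) * ((r : ℂ) * (cexp (t * I) * I))‖ ≤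
      2 / R * (1 - ‖χ ((r : ℂ) * cexp (t * I))‖) := by
    intro t
    have h := Pool.Agent.KRB.PHAux.pick hR (hd.mono (hsub t)) (fun z hz => (hb z (hsub t hz)).le)
    have e : ‖(r : ℂ) * (cexp (t * I) * I)‖ = r := by
      rw [← mul_assoc, norm_mul, hnorm, Complex.norm_I, mul_one]
    rw [norm_mul, e]
    calc ‖deriv χ ((r : ℂ) * cexp (t * I))‖ * r
        ≤ ‖deriv χ ((r : ℂ) * cexp (t * I))‖ * 1 :=
          mul_le_mul_of_nonneg_left hr1 (norm_nonneg _)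
      _ ≤ 2 / R * (1 - ‖χ ((r : ℂ) * cexp (t * I))‖) := by rw [mul_one]; exact h
  exact Pool.Agent.KRB.PHAux.gron2 hA hV hVb t t'

end CHIAux

open CHIAux in
/-- **CHI** -/
theorem chi : S_CHI := by
  intro η ρ s F b hη hη2 hρ1 hρ2 hP hb
  have hne : ∀ z ∈ An (1 - η), Pm s z - (starRingEnd ℂ) b * F z ≠ 0 := fun z hz =>
    ne_aux hb (hP.lt z hz)
  have hlt : ∀ z ∈ An (1 - η), ‖Ch s F b z‖ < 1 := by
    intro z hz
    rw [Ch, norm_div, div_lt_one (norm_pos_iff.2 (hne z hz))]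
    exact lt_aux hb (hP.lt z hz)
  have hdiff : DifferentiableOn ℂ (Ch s F b) (An (1 - η)) := by
    have hF : DifferentiableOn ℂ F (An (1 - η)) := hP.dF.mono (Pool.Agent.KRC.Bas.An_sub _)
    have hPm : DifferentiableOn ℂ (Pm s) (An (1 - η)) := (Bas.Pm_diff s).differentiableOn
    exact (hF.sub (hPm.const_mul b)).div (hPm.sub (hF.const_mul _)) hne
  refine ⟨hdiff, fun z hz => ⟨hne z hz, hlt z hz⟩, ?_, ?_, ?_⟩
  · intro r t t' hr1 hr2
    have h := circ (χ := Ch s F b) (c := 1 - η) (r := r) (R := η / 4) (by positivity) (by linarith)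
      (by linarith) (by linarith) (by linarith) hdiff hlt t t'
    have e : 2 / (η / 4) * |t - t'| = 8 * |t' - t| / η := by
      rw [abs_sub_comm t t']
      field_simp
      ring
    rw [e] at h
    exact h
  · intro t
    have hsub : ball (((ρ - η / 8 : ℝ) : ℂ) * cexp (t * I)) (3 * η / 8) ⊆ An (1 - η) := by
      intro z hz
      rw [mem_ball, dist_eq_norm] at hz
      have hn : ‖((ρ - η / 8 : ℝ) : ℂ) * cexp (t * I)‖ = ρ - η / 8 := by
        rw [norm_mul, Complex.norm_exp_ofReal_mul_I, mul_one, Complex.norm_real,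
          Real.norm_of_nonneg (by linarith)]
      have e1 := norm_sub_norm_le (((ρ - η / 8 : ℝ) : ℂ) * cexp (t * I)) z
      have e2 := norm_sub_norm_le z (((ρ - η / 8 : ℝ) : ℂ) * cexp (t * I))
      rw [norm_sub_rev] at e1
      rw [hn] at e1 e2
      exact ⟨by linarith, by linarith⟩
    refine (Pool.Agent.KRC.pck (Ch s F b) (((ρ - η / 8 : ℝ) : ℂ) * cexp (t * I)) (3 * η / 8)
      (by positivity) (hdiff.mono hsub) (fun z hz => (hlt z (hsub hz)).le)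
      (ρ * cexp (t * I)) ?_).2
    have e : (ρ : ℂ) * cexp (t * I) - ((ρ - η / 8 : ℝ) : ℂ) * cexp (t * I) =
        ((η / 8 : ℝ) : ℂ) * cexp (t * I) := by
      push_cast
      ring
    rw [e, norm_mul, Complex.norm_exp_ofReal_mul_I, mul_one, Complex.norm_real,
      Real.norm_of_nonneg (by positivity)]
    linarith
  · obtain ⟨v, hv, hbv⟩ : ∃ v : ℂ, ‖v‖ = 1 ∧ b = ‖b‖ * v := by
      by_cases h0 : b = 0
      · exact ⟨1, norm_one, by rw [h0]; simp⟩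
      · have hp : 0 < ‖b‖ := norm_pos_iff.2 h0
        have hpc : ((‖b‖ : ℝ) : ℂ) ≠ 0 := by exact_mod_cast hp.ne'
        refine ⟨b / ‖b‖, ?_, ?_⟩
        · rw [norm_div, Complex.norm_real, norm_norm, div_self hp.ne']
        · rw [mul_div_cancel₀ _ hpc]
    exact ⟨v, hv, fun z hz => last hb (hP.lt z hz) hv hbv⟩

end Pool.Agent.KRE
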