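import Pool.Agent.KRE.Bas

/-!
# The exact order of `1 - κ_p`: the pointwise bound
-/

set_option autoImplicit false

namespace Pool.Agent.KRE

open Complex MeasureTheory Set Filter Topology Metric
open Pool.Agent.KRC (An)

namespace CO2Aux

theorem rpow_sq_half {x q : ℝ} (hx : 0 ≤ x) : (x ^ 2) ^ (q / 2) = x ^ q := by
  rw [← Real.rpow_natCast, ← Real.rpow_mul hx]
  congr 1
  push_cast
  ring

end CO2Aux

open CO2Aux

theorem co2 (hM : S_MQ) (hG : S_GNP) (hP : S_PT2) : S_CO2 := by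
  intro f g F g₀ H₄ s η ρ p z₀ hp hη hη2 hρ1 hρ2 hpair hg₀ hfg hH₄ hbd hz₀
  obtain ⟨u, Q, hu, hQd, hQ1, hQ2⟩ := hM η ρ s F z₀ hη hη2 hρ1 hρ2 hpair hz₀
  have hρ0 : 0 < ρ := by linarith
  have hρlt : ρ < 1 := by linarith
  set q : ℝ := p - 1 with hq
  have hq0 : 0 ≤ q := by linarith
  have hσ0 : 0 ≤ q / 2 := by linarith
  set c₁ : ℝ := 1 - 2 / 3 * η with hc₁
  have hc1ρ : c₁ < ρ := by rw [hc₁]; linarith
  have hc1pos : 0 < c₁ := by rw [hc₁]; linarith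
  have hc1 : 1 - η < c₁ := by rw [hc₁]; linarith
  obtain ⟨E, hEd, hE1, hE2⟩ := hG s c₁ ρ (fun a ha => (hpair.hs a ha).trans hc1.le) hc1ρ
    (by linarith) hρlt.le
  set n : ℝ := (Multiset.card s : ℝ) with hn
  have hn0 : 0 ≤ n := by positivity
  -- the functions are analytic
  have hfd : DifferentiableOn ℂ f (ball 0 1) :=
    (hpair.dF.mul hg₀).congr fun z hz => (hfg z hz).2
  have hgd : DifferentiableOn ℂ g (ball 0 1) :=
    ((Bas.Pm_diff s).differentiableOn.mul hg₀).congr fun z hz => (hfg z hz).1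
  have hcbρ : closedBall (0 : ℂ) c₁ ⊆ ball 0 ρ := by
    intro w hw
    rw [mem_closedBall_zero_iff] at hw
    rw [mem_ball_zero_iff]
    linarith
  have hρb : closedBall (0 : ℂ) ρ ⊆ ball 0 1 := by
    intro w hw
    rw [mem_closedBall_zero_iff] at hw
    rw [mem_ball_zero_iff]
    linarith
  have hcb : closedBall (0 : ℂ) c₁ ⊆ ball 0 1 := (hcbρ.trans ball_subset_closedBall).trans hρb
  have hG1 : DifferentiableOn ℂ (fun z => f z ^ 2 * E z) (ball 0 ρ) :=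
    ((hfd.mono (ball_subset_closedBall.trans hρb)).pow 2).mul hEd
  have hG2 : DifferentiableOn ℂ (fun z => f z * Pr s ρ z * g₀ z) (ball 0 1) :=
    (hfd.mul (Bas.Pr_diff s ρ).differentiableOn).mul hg₀
  have hh : DifferentiableOn ℂ (fun z => (f z - u * g z) * Q z) (ball 0 1) :=
    (hfd.sub (hgd.const_mul u)).mul hQd.differentiableOn
  have hmem : ∀ z : ℂ, 1 - η < ‖z‖ → ‖z‖ < 1 → ‖F z‖ < ‖Pm s z‖ :=
    fun z h1 h2 => hpair.lt z ⟨h1, h2⟩
  have hmax := hP (fun z => f z ^ 2 * E z) (fun z => f z * Pr s ρ z * g₀ z)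
    (fun z => (f z - u * g z) * Q z) H₄ c₁ ρ (q / 2) hc1pos hc1ρ hσ0
    (hG1.mono hcbρ).continuousOn (hG1.mono (ball_subset_closedBall.trans hcbρ))
    (hG2.mono hρb).continuousOn (hG2.mono (ball_subset_closedBall.trans hρb))
    (hh.mono hρb).continuousOn (hh.mono (ball_subset_closedBall.trans hρb)) ?_ hH₄ ?_ z₀
    (hz₀.trans hc1.le)
  · -- the conclusion
    beta_reduce at hmax
    by_cases hfg0 : ‖f z₀‖ ≤ ‖g z₀‖
    · rw [max_eq_right (by linarith), mul_zero, mul_zero]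
      exact le_trans (by positivity) hmax
    · rw [not_le] at hfg0
      rw [max_eq_left (by linarith)]
      refine le_trans ?_ hmax
      have l1 := hE2 z₀ (hz₀.trans hc1.le)
      have l3 : ‖f z₀‖ - ‖g z₀‖ ≤ ‖f z₀ - u * g z₀‖ := by
        have h1 := norm_sub_norm_le (f z₀) (u * g z₀)
        rw [norm_mul, hu, one_mul] at h1
        exact h1
      have l4 : ‖f z₀‖ ^ q * Real.exp (q / 2 * (n * ((ρ - c₁) * (ρ - ‖z₀‖) / 16))) ≤
          ‖f z₀ ^ 2 * E z₀‖ ^ (q / 2) := by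
        rw [norm_mul, norm_pow, Real.mul_rpow (by positivity) (norm_nonneg _),
          rpow_sq_half (norm_nonneg _)]
        apply mul_le_mul_of_nonneg_left _ (by positivity)
        rw [mul_comm (q / 2), Real.exp_mul]
        exact Real.rpow_le_rpow (Real.exp_pos _).le l1 hσ0
      have l5 : (‖f z₀‖ - ‖g z₀‖) * Real.exp (-(832 * (1 + n) * (ρ - ‖z₀‖) / η)) ≤
          ‖(f z₀ - u * g z₀) * Q z₀‖ := by
        rw [norm_mul]
        exact mul_le_mul l3 hQ2 (Real.exp_pos _).le (norm_nonneg _)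
      have h1 := mul_le_mul l4 l5 (by
        have : 0 ≤ ‖f z₀‖ - ‖g z₀‖ := by linarith
        positivity) (by positivity)
      refine le_trans ?_ h1
      have h2 : ‖f z₀‖ ^ q * Real.exp (q / 2 * (n * ((ρ - c₁) * (ρ - ‖z₀‖) / 16))) *
          ((‖f z₀‖ - ‖g z₀‖) * Real.exp (-(832 * (1 + n) * (ρ - ‖z₀‖) / η))) =
          Real.exp (q / 2 * (n * ((ρ - c₁) * (ρ - ‖z₀‖) / 16)) +
            -(832 * (1 + n) * (ρ - ‖z₀‖) / η)) * (‖f z₀‖ ^ q * (‖f z₀‖ - ‖g z₀‖)) := by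
        rw [Real.exp_add]
        ring
      rw [h2]
      apply mul_le_mul_of_nonneg_right _ (by
        have : 0 ≤ ‖f z₀‖ - ‖g z₀‖ := by linarith
        positivity)
      apply Real.exp_le_exp.2
      have h3 : 0 ≤ ρ - ‖z₀‖ := by linarith
      have h4 : η / 6 ≤ ρ - c₁ := by rw [hc₁]; linarith
      have h5 : q * η * n / 192 * (ρ - ‖z₀‖) ≤ q / 2 * (n * ((ρ - c₁) * (ρ - ‖z₀‖) / 16)) := by
        have h6 : q * n * (ρ - ‖z₀‖) / 32 * (η / 6) ≤ q * n * (ρ - ‖z₀‖) / 32 * (ρ - c₁) :=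
          mul_le_mul_of_nonneg_left h4 (by positivity)
        calc q * η * n / 192 * (ρ - ‖z₀‖) = q * n * (ρ - ‖z₀‖) / 32 * (η / 6) := by ring
          _ ≤ q * n * (ρ - ‖z₀‖) / 32 * (ρ - c₁) := h6
          _ = _ := by ring
      have h7 : (q * η * n / 192 - 832 * (1 + n) / η) * (ρ - ‖z₀‖) =
          q * η * n / 192 * (ρ - ‖z₀‖) + -(832 * (1 + n) * (ρ - ‖z₀‖) / η) := by
        ring
      rw [h7]
      linarith
  · -- the circle of radius `c₁`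
    intro z hz
    have hz1 : z ∈ ball (0 : ℂ) 1 := hcb (mem_closedBall_zero_iff.2 hz.le)
    obtain ⟨e1, e2⟩ := hfg z hz1
    have e3 := hmem z (by rw [hz]; exact hc1) (mem_ball_zero_iff.1 hz1)
    have e4 : ‖f z‖ ≤ ‖Pm s z‖ * ‖g₀ z‖ := by
      rw [e2, norm_mul]
      exact mul_le_mul_of_nonneg_right e3.le (norm_nonneg _)
    have e5 := hE1 z hz
    beta_reduce
    rw [norm_mul, norm_pow, norm_mul, norm_mul]
    calc ‖f z‖ ^ 2 * ‖E z‖ = ‖f z‖ * (‖f z‖ * ‖E z‖) := by ring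
      _ ≤ ‖f z‖ * ((‖Pm s z‖ * ‖g₀ z‖) * ‖E z‖) := by gcongr
      _ = ‖f z‖ * ‖g₀ z‖ * (‖E z‖ * ‖Pm s z‖) := by ring
      _ ≤ ‖f z‖ * ‖g₀ z‖ * ‖Pr s ρ z‖ := mul_le_mul_of_nonneg_left e5 (by positivity)
      _ = _ := by ring
  · -- the circle of radius `ρ`
    intro w hw
    have hw1 : w ∈ ball (0 : ℂ) 1 := hρb (mem_closedBall_zero_iff.2 hw.le)
    obtain ⟨e1, e2⟩ := hfg w hw1
    refine le_trans ?_ (hbd w hw)
    beta_reduce
    have e3 : ‖f w * Pr s ρ w * g₀ w‖ = ‖g w‖ * ‖f w‖ := by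
      rw [norm_mul, norm_mul, Bas.norm_Pr hρ0 s hw, e1, norm_mul]
      ring
    have e4 : ‖(f w - u * g w) * Q w‖ ≤ 22 * (‖g w‖ - ‖f w‖) := by
      have h1 : (f w - u * g w) = g₀ w * (F w - u * Pm s w) := by
        rw [e1, e2]; ring
      rw [norm_mul, h1, norm_mul, mul_assoc]
      calc ‖g₀ w‖ * (‖F w - u * Pm s w‖ * ‖Q w‖) ≤ ‖g₀ w‖ * (22 * (‖Pm s w‖ - ‖F w‖)) :=
            mul_le_mul_of_nonneg_left (hQ1 w hw) (norm_nonneg _)
        _ = 22 * (‖g w‖ - ‖f w‖) := by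
          rw [e1, e2, norm_mul, norm_mul]; ring
    rw [e3]
    calc (‖g w‖ * ‖f w‖) ^ (q / 2) * ‖(f w - u * g w) * Q w‖
        ≤ (‖g w‖ * ‖f w‖) ^ (q / 2) * (22 * (‖g w‖ - ‖f w‖)) :=
          mul_le_mul_of_nonneg_left e4 (by positivity)
      _ = _ := by ring

end Pool.Agent.KRE
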