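import Pool.Agent.KRE.Bas
import Pool.Agent.KRB.Mul

/-!
# The exact order of `1 - κ_p`: the cost
-/

set_option autoImplicit false

namespace Pool.Agent.KRE

open Complex MeasureTheory Set Filter Topology Metric
open Pool.Agent.KRC (An)

namespace CSTAux

/-- the function `ζ` -/
noncomputable def zt (ρ t₁ : ℝ) (z : ℂ) : ℂ := 1 - z * cexp (-(t₁ * I)) / ρ

/-- the function `H₂` -/
noncomputable def H2 (A ρ t₁ ε : ℝ) (z : ℂ) : ℂ :=
  (A : ℂ) * (zt ρ t₁ z / (zt ρ t₁ z + (ε : ℂ)))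

lemma zt_re {ρ t₁ : ℝ} (hρ : 0 < ρ) {z : ℂ} (hz : ‖z‖ ≤ ρ) : 0 ≤ (zt ρ t₁ z).re := by
  unfold zt
  have h1 : ‖z * cexp (-(t₁ * I)) / ρ‖ ≤ 1 := by
    rw [norm_div, norm_mul, ← neg_mul, ← Complex.ofReal_neg, Complex.norm_exp_ofReal_mul_I,
        mul_one, Complex.norm_real, Real.norm_of_nonneg hρ.le, div_le_one hρ]
    exact hz
  have h2 := (Complex.re_le_norm (z * cexp (-(t₁ * I)) / ρ)).trans h1
  rw [Complex.sub_re, Complex.one_re]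
  linarith

lemma zt_add_ne {ρ t₁ ε : ℝ} (hρ : 0 < ρ) (hε : 0 < ε) {z : ℂ} (hz : ‖z‖ ≤ ρ) :
    zt ρ t₁ z + (ε : ℂ) ≠ 0 := by
  intro h
  have h1 := congrArg Complex.re h
  rw [Complex.add_re, Complex.ofReal_re, Complex.zero_re] at h1
  have h2 := zt_re (t₁ := t₁) hρ hz
  linarith

lemma H2_diff {A ρ t₁ ε : ℝ} (hρ : 0 < ρ) (hε : 0 < ε) {z : ℂ} (hz : ‖z‖ ≤ ρ) :
    DifferentiableAt ℂ (H2 A ρ t₁ ε) z := by
  have hw : DifferentiableAt ℂ (zt ρ t₁) z := by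
    unfold zt
    fun_prop
  unfold H2
  exact DifferentiableAt.const_mul (hw.div (hw.add_const _) (zt_add_ne hρ hε hz)) _

lemma H2_re_nonneg {A ρ t₁ ε : ℝ} (hA : 0 ≤ A) (hρ : 0 < ρ) (hε : 0 < ε) {z : ℂ}
    (hz : ‖z‖ ≤ ρ) : 0 ≤ (H2 A ρ t₁ ε z).re := by
  unfold H2
  rw [Complex.re_ofReal_mul]
  exact mul_nonneg hA (Pool.Agent.KRB.MULAux.re_div_nonneg hε (zt_re hρ hz))

lemma H2_re_ge {A ρ t₁ ε : ℝ} (hA : 0 ≤ A) (hρ : 0 < ρ) (hε : 0 < ε) {z : ℂ}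
    (hz : ‖z‖ ≤ ρ) (h : ε ≤ ‖zt ρ t₁ z‖) : A / 4 ≤ (H2 A ρ t₁ ε z).re := by
  unfold H2
  rw [Complex.re_ofReal_mul]
  have h1 := mul_le_mul_of_nonneg_left
    (Pool.Agent.KRB.MULAux.re_div_ge hε (zt_re hρ hz) h) hA
  linarith

lemma zt_circle {ρ t₁ τ : ℝ} (hρ : 0 < ρ) :
    zt ρ t₁ (ρ * cexp ((t₁ + τ : ℝ) * I)) = 1 - cexp (τ * I) := by
  have hρ0 : (ρ : ℂ) ≠ 0 := by exact_mod_cast hρ.ne'
  unfold zt
  congr 1
  rw [mul_assoc, mul_div_assoc, mul_comm (ρ : ℂ), div_mul_cancel₀ _ hρ0, ← Complex.exp_add]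
  congr 1
  push_cast
  ring

lemma norm_lower {τ : ℝ} (hτ : |τ| ≤ Real.pi) : 2 / Real.pi * |τ| ≤ ‖1 - cexp (τ * I)‖ := by
  rw [norm_sub_rev, mul_comm ((τ : ℝ) : ℂ) I, Complex.norm_exp_I_mul_ofReal_sub_one]
  have h5 : |τ / 2| ≤ Real.pi / 2 := by
    rw [abs_div, abs_two]
    linarith
  have h6 := Real.mul_abs_le_abs_sin h5
  rw [Real.norm_eq_abs, abs_mul, abs_two]
  rw [abs_div, abs_two] at h6
  linarith

lemma zt_w1 {ρ r t₁ : ℝ} : zt ρ t₁ ((r : ℝ) * cexp (t₁ * I)) = ((1 - r / ρ : ℝ) : ℂ) := by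
  unfold zt
  rw [mul_assoc, ← Complex.exp_add, add_neg_cancel, Complex.exp_zero, mul_one]
  push_cast
  rfl

lemma H2_w1 {A ρ r t₁ ε : ℝ} (hA : 0 ≤ A) (hρ : 0 < ρ) (hε : 0 < ε) (hr : r ≤ ρ) :
    (H2 A ρ t₁ ε ((r : ℝ) * cexp (t₁ * I))).re ≤ A * ((1 - r / ρ) / ε) := by
  unfold H2
  rw [zt_w1, ← Complex.ofReal_add, ← Complex.ofReal_div, ← Complex.ofReal_mul, Complex.ofReal_re]
  have h0 : 0 ≤ 1 - r / ρ := by
    rw [sub_nonneg, div_le_one hρ]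
    exact hr
  refine mul_le_mul_of_nonneg_left ?_ hA
  exact div_le_div_of_nonneg_left h0 hε (by linarith)

lemma polar {ρ : ℝ} (t₁ : ℝ) {w : ℂ} (hw : ‖w‖ = ρ) :
    ∃ τ : ℝ, |τ| ≤ Real.pi ∧ w = ρ * cexp ((t₁ + τ : ℝ) * I) := by
  refine ⟨arg (w * cexp (-(t₁ * I))), Complex.abs_arg_le_pi _, ?_⟩
  have h1 := Complex.norm_mul_exp_arg_mul_I (w * cexp (-(t₁ * I)))
  have h2 : ‖w * cexp (-(t₁ * I))‖ = ρ := by
    rw [norm_mul, ← neg_mul, ← Complex.ofReal_neg, Complex.norm_exp_ofReal_mul_I, mul_one, hw]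
  rw [h2] at h1
  have h3 : w = w * cexp (-(t₁ * I)) * cexp (t₁ * I) := by
    rw [mul_assoc, ← Complex.exp_add, neg_add_cancel, Complex.exp_zero, mul_one]
  have h4 : cexp ((t₁ + arg (w * cexp (-(t₁ * I))) : ℝ) * I) =
      cexp (arg (w * cexp (-(t₁ * I))) * I) * cexp (t₁ * I) := by
    rw [← Complex.exp_add]
    congr 1
    push_cast
    ring
  rw [h4, ← mul_assoc, h1]
  exact h3

lemma phi_eq {Kx Ky Gx Gy Sx Sy E : ℂ} (hx : Gx ≠ 0) (hy : Gy ≠ 0) (h1 : ‖Sx‖ = ‖Gx‖)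
    (h2 : ‖Sy‖ = ‖Gy‖) :
    ‖(Ky * Gx - Kx * Gy) * E / (Sx * Sy)‖ = ‖Ky / Gy - Kx / Gx‖ * ‖E‖ := by
  have h3 : Ky / Gy - Kx / Gx = (Ky * Gx - Kx * Gy) / (Gx * Gy) := by
    field_simp
  rw [h3, norm_div, norm_div, norm_mul, norm_mul, norm_mul, h1, h2]
  ring

lemma phi_ge {Ky Gx Gy Sx Sy E : ℂ} {C : ℝ} (hC : 0 < C) (hx : Gx ≠ 0) (hy : Gy ≠ 0)
    (hsx : Sx ≠ 0) (hsy : Sy ≠ 0) (h1 : ‖Sx‖ ≤ C * ‖Gx‖) (h2 : ‖Sy‖ ≤ C * ‖Gy‖) :
    ‖Ky / Gy‖ * ‖E‖ ≤ C * C * ‖(Ky * Gx - 0 * Gy) * E / (Sx * Sy)‖ := by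
  have hx' := norm_pos_iff.2 hx
  have hy' := norm_pos_iff.2 hy
  have hsx' := norm_pos_iff.2 hsx
  have hsy' := norm_pos_iff.2 hsy
  rw [zero_mul, sub_zero, norm_div, norm_div, norm_mul, norm_mul, norm_mul]
  have h3 : ‖Sx‖ * ‖Sy‖ ≤ (C * ‖Gx‖) * (C * ‖Gy‖) :=
    mul_le_mul h1 h2 hsy'.le (by positivity)
  have h4 : ‖Ky‖ / ‖Gy‖ * ‖E‖ = ‖Ky‖ * ‖Gx‖ * ‖E‖ / (‖Gx‖ * ‖Gy‖) := by
    field_simp
  rw [h4, mul_div_assoc', div_le_div_iff₀ (by positivity) (by positivity)]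
  have h5 : 0 ≤ ‖Ky‖ * ‖Gx‖ * ‖E‖ := by positivity
  calc ‖Ky‖ * ‖Gx‖ * ‖E‖ * (‖Sx‖ * ‖Sy‖) ≤ ‖Ky‖ * ‖Gx‖ * ‖E‖ * ((C * ‖Gx‖) * (C * ‖Gy‖)) :=
        mul_le_mul_of_nonneg_left h3 h5
    _ = _ := by ring

lemma log32 : Real.log 24 ≤ 3.5 := by
  have h1 : Real.log 24 ≤ Real.log 32 := Real.log_le_log (by norm_num) (by norm_num)
  have h2 : Real.log 32 = 5 * Real.log 2 := by
    rw [show (32 : ℝ) = 2 ^ 5 by norm_num, Real.log_pow]
    norm_num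
  have h3 := Real.log_two_lt_d9
  rw [h2] at h1
  linarith

lemma final {x : ℝ} {n : ℕ} (h : 1 / 2 * Real.exp (x - 8 * Real.pi / 3) ≤
    (5 / 3) ^ n * (5 / 3) ^ n * 12) : x ≤ 12 * (1 + (n : ℝ)) := by
  have h0 : (0 : ℝ) < (5 / 3) ^ n := by positivity
  have h1 : Real.exp (x - 8 * Real.pi / 3) ≤ 24 * ((5 / 3) ^ n * (5 / 3) ^ n) := by linarith
  have h2 := Real.log_le_log (Real.exp_pos _) h1
  rw [Real.log_exp, Real.log_mul (by norm_num) (by positivity), Real.log_mul h0.ne' h0.ne',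
    Real.log_pow] at h2
  have h3 := log32
  have h4 : Real.log (5 / 3) ≤ 5 / 3 - 1 := Real.log_le_sub_one_of_pos (by norm_num)
  have h5 := Real.pi_lt_d2
  have h6 : (n : ℝ) * Real.log (5 / 3) ≤ n * (5 / 3 - 1) :=
    mul_le_mul_of_nonneg_left h4 (Nat.cast_nonneg n)
  have h7 : (0 : ℝ) ≤ n := Nat.cast_nonneg n
  linarith

end CSTAux

open CSTAux in
theorem cst (hG : S_GZ) (hC : S_CHI) : S_CST := by
  intro η ρ t₁ s F H w₁ hη hη2 hρ1 hρ2 hP hH hw₁ hHb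
  obtain ⟨b, hb⟩ : ∃ b : ℂ, b = F w₁ / Pm s w₁ := ⟨_, rfl⟩
  rw [← hb] at hHb
  have hρ0 : 0 < ρ := by linarith
  have hρ34 : 3 / 4 ≤ ρ := by linarith
  have hρb0 : 0 < ρ - η / 8 := by linarith
  have hρlt1 : ρ < 1 := by linarith
  have hn0 : (0 : ℝ) ≤ Multiset.card s := Nat.cast_nonneg _
  have hnb : ∀ t : ℝ, ‖((ρ - η / 8 : ℝ) : ℂ) * cexp (t * I)‖ = ρ - η / 8 := by
    intro t
    rw [norm_mul, Complex.norm_exp_ofReal_mul_I, mul_one, Complex.norm_real,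
      Real.norm_of_nonneg hρb0.le]
  have hnρ : ∀ t : ℝ, ‖(ρ : ℂ) * cexp (t * I)‖ = ρ := by
    intro t
    rw [norm_mul, Complex.norm_exp_ofReal_mul_I, mul_one, Complex.norm_real,
      Real.norm_of_nonneg hρ0.le]
  have hAb : ∀ z : ℂ, ‖z‖ = ρ - η / 8 → z ∈ An (1 - η) := fun z hz =>
    ⟨by rw [hz]; linarith, by rw [hz]; linarith⟩
  have hAρ : ∀ z : ℂ, ‖z‖ = ρ → z ∈ An (1 - η) := fun z hz =>
    ⟨by rw [hz]; linarith, by rw [hz]; linarith⟩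
  have hnw₁ : ‖w₁‖ = ρ - η / 8 := by rw [hw₁]; exact hnb t₁
  have hAw₁ : w₁ ∈ An (1 - η) := hAb w₁ hnw₁
  have hPne : Pm s w₁ ≠ 0 := Bas.Pm_ne hP.hs hAw₁.1
  have hb1 : ‖b‖ < 1 := by
    rw [hb, norm_div, div_lt_one (norm_pos_iff.2 hPne)]
    exact hP.lt w₁ hAw₁
  have hbP : F w₁ - b * Pm s w₁ = 0 := by
    rw [hb, div_mul_cancel₀ _ hPne, sub_self]
  obtain ⟨hχd, hχ, h3, h4, -⟩ := hC η ρ s F b hη hη2 hρ1 hρ2 hP hb1
  have hχw₁ : Ch s F b w₁ = 0 := by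
    unfold Ch
    rw [hbP, zero_div]
  by_cases hA : ∀ τ : ℝ, |τ| ≤ Real.pi →
      ‖Ch s F b ((ρ - η / 8 : ℝ) * cexp ((t₁ + τ : ℝ) * I))‖ < 1 / 2
  · have h5 : ∀ w : ℂ, ‖w‖ = ρ → (H w).re ≤ 5 := by
      intro w hw
      obtain ⟨τ, hτ, hwe⟩ := polar t₁ hw
      have h6 := h4 (t₁ + τ)
      have h7 := hA τ hτ
      rw [← hwe] at h6
      have h8 : 1 / 6 ≤ 1 - ‖Ch s F b w‖ := by linarith
      refine (hHb w hw).trans ?_
      have h9 : Real.log (1 / 6) ≤ Real.log (1 - ‖Ch s F b w‖) :=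
        Real.log_le_log (by norm_num) h8
      have h10 : Real.log (1 / 6) = -Real.log 6 := by rw [one_div, Real.log_inv]
      have h11 : Real.log 6 ≤ 6 - 1 := Real.log_le_sub_one_of_pos (by norm_num)
      linarith
    have h6 := Bas.re_le hH.continuous.continuousOn hH.differentiableOn hρ0 h5 (z := w₁)
      (by rw [hnw₁]; linarith)
    linarith
  · push Not at hA
    obtain ⟨τ', hτ', hτ'2⟩ := hA
    have hcont : Continuous
        (fun τ : ℝ => Ch s F b ((ρ - η / 8 : ℝ) * cexp ((t₁ + τ : ℝ) * I))) :=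
      hχd.continuousOn.comp_continuous (by fun_prop) fun τ => hAb _ (hnb _)
    have hS : IsCompact (Icc (-Real.pi) Real.pi ∩
        {τ : ℝ | 1 / 2 ≤ ‖Ch s F b ((ρ - η / 8 : ℝ) * cexp ((t₁ + τ : ℝ) * I))‖}) :=
      isCompact_Icc.inter_right (isClosed_le continuous_const hcont.norm)
    obtain ⟨τ₀, hτ₀, hmin⟩ := hS.exists_isMinOn ⟨τ', abs_le.1 hτ', hτ'2⟩
      (continuous_abs.continuousOn (s := Icc (-Real.pi) Real.pi ∩
        {τ : ℝ | 1 / 2 ≤ ‖Ch s F b ((ρ - η / 8 : ℝ) * cexp ((t₁ + τ : ℝ) * I))‖}))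
    obtain ⟨θ, hθ⟩ : ∃ θ : ℝ, θ = |τ₀| := ⟨_, rfl⟩
    have hθπ : θ ≤ Real.pi := by rw [hθ]; exact abs_le.2 hτ₀.1
    have hτ₀2 : 1 / 2 ≤ ‖Ch s F b ((ρ - η / 8 : ℝ) * cexp ((t₁ + τ₀ : ℝ) * I))‖ := hτ₀.2
    have hθ0 : 0 < θ := by
      rw [hθ, abs_pos]
      intro h0
      rw [h0, add_zero, ← hw₁, hχw₁, norm_zero] at hτ₀2
      linarith
    have hnear : ∀ τ : ℝ, |τ| < θ →
        ‖Ch s F b ((ρ - η / 8 : ℝ) * cexp ((t₁ + τ : ℝ) * I))‖ < 1 / 2 := by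
      intro τ hτ
      by_contra hcon
      have h5 : τ ∈ Icc (-Real.pi) Real.pi ∩
          {τ : ℝ | 1 / 2 ≤ ‖Ch s F b ((ρ - η / 8 : ℝ) * cexp ((t₁ + τ : ℝ) * I))‖} :=
        ⟨abs_le.1 (hτ.le.trans hθπ), not_lt.1 hcon⟩
      have h6 : |τ₀| ≤ |τ| := hmin h5
      rw [← hθ] at h6
      linarith
    obtain ⟨s', G₁, hs', hcard, hG₁d, hG₁ne, hG₁⟩ :=
      hG (1 - η) s F b (by linarith) (by linarith) hP hb1
    obtain ⟨u, hu⟩ : ∃ u : ℂ, u = cexp (τ₀ * I) := ⟨_, rfl⟩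
    have hu1 : ‖u‖ = 1 := by rw [hu]; exact Complex.norm_exp_ofReal_mul_I τ₀
    have hzu : ∀ z : ℂ, ‖z * u‖ = ‖z‖ := fun z => by rw [norm_mul, hu1, mul_one]
    have hrot : ∀ r t : ℝ, (r : ℂ) * cexp ((t : ℝ) * I) * u = r * cexp ((t + τ₀ : ℝ) * I) := by
      intro r t
      rw [hu, mul_assoc, ← Complex.exp_add]
      congr 2
      push_cast
      ring
    -- the function `Gs`
    obtain ⟨Gs, hGs⟩ : ∃ Gs : ℂ → ℂ, Gs = fun z => Pr s' ρ z * G₁ z := ⟨_, rfl⟩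
    have hGsd : ∀ z : ℂ, ‖z‖ ≤ ρ → DifferentiableAt ℂ Gs z := by
      intro z hz
      rw [hGs]
      exact (Bas.Pr_diff s' ρ z).mul (hG₁d.differentiableAt
        (isOpen_ball.mem_nhds (mem_ball_zero_iff.2 (hz.trans_lt hρlt1))))
    have hGsne : ∀ z : ℂ, ‖z‖ ≤ ρ → Gs z ≠ 0 := by
      intro z hz
      rw [hGs]
      exact mul_ne_zero (Bas.Pr_ne hs' hρ0 (by linarith) hz)
        (hG₁ne z (mem_ball_zero_iff.2 (hz.trans_lt hρlt1)))
    have hGsρ : ∀ z : ℂ, ‖z‖ = ρ → ‖Gs z‖ = ‖Pm s z - (starRingEnd ℂ) b * F z‖ := by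
      intro z hz
      rw [hG₁ z (mem_ball_zero_iff.2 (by rw [hz]; exact hρlt1)), hGs]
      simp only [norm_mul]
      rw [Bas.norm_Pr hρ0 s' hz]
    have hGsb : ∀ z : ℂ, ‖z‖ = ρ - η / 8 → ‖Gs z‖ ≤ (5 / 3) ^ (Multiset.card s) *
        ‖Pm s z - (starRingEnd ℂ) b * F z‖ := by
      intro z hz
      rw [hG₁ z (mem_ball_zero_iff.2 (by rw [hz]; linarith)), hGs]
      simp only [norm_mul]
      rw [← mul_assoc, ← hcard]
      exact mul_le_mul_of_nonneg_right (Bas.Pr_le hη hη2 hρ1 s' hs' hz) (norm_nonneg _)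
    -- the functions `K` and `G`
    obtain ⟨K, hK⟩ : ∃ K : ℂ → ℂ, K = fun z => F z - b * Pm s z := ⟨_, rfl⟩
    obtain ⟨G, hGd⟩ : ∃ G : ℂ → ℂ, G = fun z => Pm s z - (starRingEnd ℂ) b * F z := ⟨_, rfl⟩
    have hFd : ∀ z : ℂ, ‖z‖ ≤ ρ → DifferentiableAt ℂ F z := fun z hz =>
      hP.dF.differentiableAt (isOpen_ball.mem_nhds (mem_ball_zero_iff.2 (hz.trans_lt hρlt1)))
    have hKd : ∀ z : ℂ, ‖z‖ ≤ ρ → DifferentiableAt ℂ K z := by
      intro z hz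
      rw [hK]
      exact (hFd z hz).sub ((Bas.Pm_diff s z).const_mul b)
    have hGdd : ∀ z : ℂ, ‖z‖ ≤ ρ → DifferentiableAt ℂ G z := by
      intro z hz
      rw [hGd]
      exact (Bas.Pm_diff s z).sub ((hFd z hz).const_mul _)
    have hCh : ∀ z : ℂ, Ch s F b z = K z / G z := by
      intro z
      rw [hK, hGd]
      rfl
    have hGne : ∀ z ∈ An (1 - η), G z ≠ 0 := by
      intro z hz
      rw [hGd]
      exact (hχ z hz).1
    have hGsρ' : ∀ z : ℂ, ‖z‖ = ρ → ‖Gs z‖ = ‖G z‖ := by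
      intro z hz
      rw [hGd]
      exact hGsρ z hz
    have hGsb' : ∀ z : ℂ, ‖z‖ = ρ - η / 8 → ‖Gs z‖ ≤ (5 / 3) ^ (Multiset.card s) * ‖G z‖ := by
      intro z hz
      rw [hGd]
      exact hGsb z hz
    have hKw₁ : K w₁ = 0 := by
      rw [hK]
      exact hbP
    -- the function `H₂`
    have hπ := Real.pi_pos
    obtain ⟨ε, hε⟩ : ∃ ε : ℝ, ε = 2 / Real.pi * θ := ⟨_, rfl⟩
    have hε0 : 0 < ε := by rw [hε]; positivity
    obtain ⟨A, hAd⟩ : ∃ A : ℝ, A = 32 * θ / η := ⟨_, rfl⟩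
    have hA0 : 0 ≤ A := by rw [hAd]; positivity
    obtain ⟨E, hE⟩ : ∃ E : ℂ → ℂ, E = fun z => cexp (H z - H2 A ρ t₁ ε z) := ⟨_, rfl⟩
    have hEd : ∀ z : ℂ, ‖z‖ ≤ ρ → DifferentiableAt ℂ E z := by
      intro z hz
      rw [hE]
      exact ((hH z).sub (H2_diff hρ0 hε0 hz)).cexp
    have hEn : ∀ z : ℂ, ‖E z‖ = Real.exp ((H z).re - (H2 A ρ t₁ ε z).re) := by
      intro z
      rw [hE]
      simp only [Complex.norm_exp, Complex.sub_re]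
    obtain ⟨Φ, hΦ⟩ : ∃ Φ : ℂ → ℂ, Φ = fun z => (K (z * u) * G z - K z * G (z * u)) * E z /
        (Gs z * Gs (z * u)) := ⟨_, rfl⟩
    have hmu : ∀ z : ℂ, DifferentiableAt ℂ (fun z : ℂ => z * u) z := fun z =>
      differentiableAt_id.mul_const u
    have hcomp : ∀ (f : ℂ → ℂ), (∀ z : ℂ, ‖z‖ ≤ ρ → DifferentiableAt ℂ f z) → ∀ z : ℂ,
        ‖z‖ ≤ ρ → DifferentiableAt ℂ (fun z => f (z * u)) z := by
      intro f hf z hz
      exact DifferentiableAt.comp z (hf (z * u) (by rw [hzu]; exact hz)) (hmu z)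
    have hΦd : ∀ z : ℂ, ‖z‖ ≤ ρ → DifferentiableAt ℂ Φ z := by
      intro z hz
      rw [hΦ]
      refine DifferentiableAt.div ?_ ?_ ?_
      · exact (((hcomp K hKd z hz).mul (hGdd z hz)).sub
          ((hKd z hz).mul (hcomp G hGdd z hz))).mul (hEd z hz)
      · exact (hGsd z hz).mul (hcomp Gs hGsd z hz)
      · exact mul_ne_zero (hGsne z hz) (hGsne _ (by rw [hzu]; exact hz))
    have hΦc : DiffContOnCl ℂ Φ (ball 0 ρ) := by
      apply DifferentiableOn.diffContOnCl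
      rw [closure_ball _ hρ0.ne']
      exact fun z hz => (hΦd z (mem_closedBall_zero_iff.1 hz)).differentiableWithinAt
    -- the bound on the circle
    have hΦρ : ∀ w : ℂ, ‖w‖ = ρ → ‖Φ w‖ ≤ 12 := by
      intro w hw
      have hwu : ‖w * u‖ = ρ := by rw [hzu]; exact hw
      have h5 : ‖Φ w‖ = ‖Ch s F b (w * u) - Ch s F b w‖ * ‖E w‖ := by
        rw [hΦ, hCh, hCh]
        exact phi_eq (hGne w (hAρ w hw)) (hGne _ (hAρ _ hwu)) (hGsρ' w hw) (hGsρ' _ hwu)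
      have h6 : ‖Ch s F b w‖ < 1 := (hχ w (hAρ w hw)).2
      have h7 : ‖Ch s F b (w * u)‖ < 1 := (hχ _ (hAρ _ hwu)).2
      have h8 : 0 < 1 - ‖Ch s F b w‖ := by linarith
      have h9 : Real.exp ((H w).re) ≤ 1 / (1 - ‖Ch s F b w‖) := by
        have h10 := Real.exp_le_exp.2 (hHb w hw)
        rwa [Real.exp_neg, Real.exp_log h8, ← one_div] at h10
      have h11 : ‖E w‖ ≤ 1 / (1 - ‖Ch s F b w‖) * Real.exp (-(H2 A ρ t₁ ε w).re) := by
        rw [hEn, sub_eq_add_neg, Real.exp_add]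
        exact mul_le_mul_of_nonneg_right h9 (Real.exp_pos _).le
      rw [h5]
      obtain ⟨τ, hτ, hwe⟩ := polar t₁ hw
      rcases lt_or_ge |τ| θ with hτθ | hτθ
      · -- near
        have h12 := hnear τ hτθ
        have h13 := h4 (t₁ + τ)
        rw [← hwe] at h13
        have h14 : 1 / 6 ≤ 1 - ‖Ch s F b w‖ := by linarith
        have h15 : ‖Ch s F b (w * u) - Ch s F b w‖ ≤ 12 * (1 - ‖Ch s F b w‖) := by
          have := norm_sub_le (Ch s F b (w * u)) (Ch s F b w)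
          linarith
        have h16 : Real.exp (-(H2 A ρ t₁ ε w).re) ≤ 1 := by
          rw [Real.exp_le_one_iff, neg_nonpos]
          exact H2_re_nonneg hA0 hρ0 hε0 hw.le
        calc ‖Ch s F b (w * u) - Ch s F b w‖ * ‖E w‖
            ≤ (12 * (1 - ‖Ch s F b w‖)) * (1 / (1 - ‖Ch s F b w‖) * 1) := by
              refine mul_le_mul h15 (h11.trans ?_) (norm_nonneg _) (by positivity)
              exact mul_le_mul_of_nonneg_left h16 (by positivity)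
          _ = 12 := by field_simp
      · -- far
        have h12 := h3 ρ (t₁ + τ) (t₁ + τ + τ₀) (by linarith) le_rfl
        rw [← hrot, ← hwe, add_sub_cancel_left, ← hθ] at h12
        have h13 : ε ≤ ‖zt ρ t₁ w‖ := by
          rw [hwe, zt_circle hρ0, hε]
          refine le_trans ?_ (norm_lower hτ)
          exact mul_le_mul_of_nonneg_left hτθ (by positivity)
        have h14 := H2_re_ge hA0 hρ0 hε0 hw.le h13
        have h15 : A / 4 = 8 * θ / η := by rw [hAd]; ring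
        have h16 : Real.exp (-(H2 A ρ t₁ ε w).re) ≤ Real.exp (-(8 * θ / η)) := by
          apply Real.exp_le_exp.2
          linarith
        have h17 : ‖Ch s F b (w * u) - Ch s F b w‖ ≤
            (1 - ‖Ch s F b w‖) * Real.exp (8 * θ / η) := by
          refine h12.trans (mul_le_mul_of_nonneg_left (by linarith) h8.le)
        calc ‖Ch s F b (w * u) - Ch s F b w‖ * ‖E w‖
            ≤ ((1 - ‖Ch s F b w‖) * Real.exp (8 * θ / η)) *
              (1 / (1 - ‖Ch s F b w‖) * Real.exp (-(8 * θ / η))) := by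
              refine mul_le_mul h17 (h11.trans ?_) (norm_nonneg _) (by positivity)
              exact mul_le_mul_of_nonneg_left h16 (by positivity)
          _ = 1 := by
              rw [Real.exp_neg]
              field_simp
          _ ≤ 12 := by norm_num
    have hΦ12 : ‖Φ w₁‖ ≤ 12 := by
      refine Complex.norm_le_of_forall_mem_frontier_norm_le isBounded_ball hΦc ?_ ?_
      · intro w hw
        rw [frontier_ball _ hρ0.ne', mem_sphere_zero_iff_norm] at hw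
        exact hΦρ w hw
      · rw [closure_ball _ hρ0.ne', mem_closedBall_zero_iff, hnw₁]
        linarith
    -- the lower bound at `w₁`
    have hwu : ‖w₁ * u‖ = ρ - η / 8 := by rw [hzu]; exact hnw₁
    have h5 : ‖K (w₁ * u) / G (w₁ * u)‖ * ‖E w₁‖ ≤
        (5 / 3) ^ (Multiset.card s) * (5 / 3) ^ (Multiset.card s) * ‖Φ w₁‖ := by
      have h6 := phi_ge (Ky := K (w₁ * u)) (E := E w₁) (C := (5 / 3) ^ (Multiset.card s))
        (by positivity) (hGne w₁ hAw₁) (hGne _ (hAb _ hwu)) (hGsne w₁ (by rw [hnw₁]; linarith))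
        (hGsne _ (by rw [hwu]; linarith)) (hGsb' w₁ hnw₁) (hGsb' _ hwu)
      rw [hΦ]
      simp only [hKw₁]
      exact h6
    have h6 : 1 / 2 ≤ ‖K (w₁ * u) / G (w₁ * u)‖ := by
      rw [← hCh]
      have h7 : w₁ * u = (ρ - η / 8 : ℝ) * cexp ((t₁ + τ₀ : ℝ) * I) := by
        rw [hw₁]
        exact hrot _ _
      rw [h7]
      exact hτ₀2
    have h7 : (H2 A ρ t₁ ε w₁).re ≤ 8 * Real.pi / 3 := by
      rw [hw₁]
      refine (H2_w1 hA0 hρ0 hε0 (by linarith)).trans ?_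
      have h8 : (1 - (ρ - η / 8) / ρ) = η / (8 * ρ) := by
        field_simp
        ring
      have h9 : η / (8 * ρ) ≤ η / 6 := by
        apply div_le_div_of_nonneg_left hη.le (by norm_num) (by linarith)
      rw [h8, hAd, hε]
      calc 32 * θ / η * (η / (8 * ρ) / (2 / Real.pi * θ))
          ≤ 32 * θ / η * (η / 6 / (2 / Real.pi * θ)) := by gcongr
        _ = 8 * Real.pi / 3 := by
            field_simp
            ring
    have h8 : Real.exp ((H w₁).re - 8 * Real.pi / 3) ≤ ‖E w₁‖ := by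
      rw [hEn]
      apply Real.exp_le_exp.2
      linarith
    apply final
    calc 1 / 2 * Real.exp ((H w₁).re - 8 * Real.pi / 3)
        ≤ ‖K (w₁ * u) / G (w₁ * u)‖ * ‖E w₁‖ :=
          mul_le_mul h6 h8 (Real.exp_pos _).le (norm_nonneg _)
      _ ≤ (5 / 3) ^ (Multiset.card s) * (5 / 3) ^ (Multiset.card s) * ‖Φ w₁‖ := h5
      _ ≤ (5 / 3) ^ (Multiset.card s) * (5 / 3) ^ (Multiset.card s) * 12 :=
          mul_le_mul_of_nonneg_left hΦ12 (by positivity)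

end Pool.Agent.KRE
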