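import Pool.Agent.KRC.Bas

/-!
# The exact order of `1 - κ_p`: definitions
-/

set_option autoImplicit false

namespace Pool.Agent.KRE

open Complex MeasureTheory Set Filter Topology Metric
open Pool.Agent.KRC (An)

/-- the product of the `z - a` over the multiset `s` -/
noncomputable def Pm (s : Multiset ℂ) (z : ℂ) : ℂ := (s.map fun a => z - a).prod

/-- the product of the reflected factors `(ρ² - conj a z)/ρ` -/
noncomputable def Pr (s : Multiset ℂ) (ρ : ℝ) (z : ℂ) : ℂ :=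
  (s.map fun a => ((ρ : ℂ) ^ 2 - (starRingEnd ℂ) a * z) / ρ).prod

/-- `F` is analytic in the disc, the zeros of `Pm s` are in `|z| ≤ c`, and `|F| < |Pm s|` on the annulus -/
structure Pair (c : ℝ) (s : Multiset ℂ) (F : ℂ → ℂ) : Prop where
  hs : ∀ a ∈ s, ‖a‖ ≤ c
  dF : DifferentiableOn ℂ F (ball 0 1)
  lt : ∀ z ∈ An c, ‖F z‖ < ‖Pm s z‖

/-- `(ω - b)/(1 - conj b ω)` for `ω = F / Pm s` -/
noncomputable def Ch (s : Multiset ℂ) (F : ℂ → ℂ) (b z : ℂ) : ℂ :=
  (F z - b * Pm s z) / (Pm s z - (starRingEnd ℂ) b * F z)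

end Pool.Agent.KRE
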