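import Pool.Agent.KRE.Stmts

/-!
# An elementary inequality (module EL)
-/

set_option autoImplicit false

namespace Pool.Agent.KRE

open Complex MeasureTheory Set Filter Topology Metric
open Pool.Agent.KRC (An)

namespace ELAux

theorem sinh_mul {p t : ℝ} (hp : 1 ≤ p) (ht : 0 ≤ t) : p * Real.sinh t ≤ Real.sinh (p * t) := by
  have hd : ∀ s : ℝ, HasDerivAt (fun s : ℝ => Real.sinh (p * s) - p * Real.sinh s)
      (Real.cosh (p * s) * p - p * Real.cosh s) s := by
    intro s
    have h1 : HasDerivAt (fun s : ℝ => p * s) p s := by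
      simpa using (hasDerivAt_id s).const_mul p
    exact h1.sinh.sub ((Real.hasDerivAt_sinh s).const_mul p)
  have hm : MonotoneOn (fun s : ℝ => Real.sinh (p * s) - p * Real.sinh s) (Ici 0) := by
    refine monotoneOn_of_deriv_nonneg (convex_Ici 0) ?_ ?_ ?_
    · exact fun s _ => (hd s).continuousAt.continuousWithinAt
    · exact fun s _ => (hd s).differentiableAt.differentiableWithinAt
    · intro s hs
      rw [interior_Ici] at hs
      have hs0 : 0 < s := hs
      rw [(hd s).deriv]
      have h1 : Real.cosh s ≤ Real.cosh (p * s) := by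
        rw [Real.cosh_le_cosh, abs_of_pos hs0, abs_of_nonneg (by positivity)]
        nlinarith
      nlinarith
  have h := hm (mem_Ici.2 le_rfl) (mem_Ici.2 ht) ht
  simp only [mul_zero, Real.sinh_zero, sub_zero] at h
  linarith

end ELAux

theorem el : S_EL := by
  intro x y p hy hyx hp
  rcases hy.eq_or_lt with h0 | h0
  · rw [← h0, mul_zero, sub_zero]
    have hx : 0 ≤ x := hy.trans hyx
    rcases hp.eq_or_lt with h1 | h1
    · rw [← h1]
      norm_num
    · rw [Real.zero_rpow (by intro h; linarith), Real.zero_rpow (by intro h; linarith), zero_mul,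
        mul_zero, sub_zero]
      exact Real.rpow_nonneg hx p
  · have hx : 0 < x := h0.trans_le hyx
    obtain ⟨a, rfl⟩ : ∃ a, x = Real.exp a := ⟨Real.log x, (Real.exp_log hx).symm⟩
    obtain ⟨b, rfl⟩ : ∃ b, y = Real.exp b := ⟨Real.log y, (Real.exp_log h0).symm⟩
    have hab : b ≤ a := Real.exp_le_exp.1 hyx
    have hs := ELAux.sinh_mul hp (show 0 ≤ (a - b) / 2 by linarith)
    rw [← Real.exp_add, ← Real.exp_mul, ← Real.exp_mul, ← Real.exp_mul]
    have e1 : Real.exp ((a + b) * ((p - 1) / 2)) * (Real.exp a - Real.exp b) =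
        2 * Real.exp ((a + b) / 2 * p) * Real.sinh ((a - b) / 2) := by
      rw [Real.sinh_eq, mul_sub, ← Real.exp_add, ← Real.exp_add]
      have : 2 * Real.exp ((a + b) / 2 * p) * ((Real.exp ((a - b) / 2) -
          Real.exp (-((a - b) / 2))) / 2) = Real.exp ((a + b) / 2 * p) * Real.exp ((a - b) / 2) -
          Real.exp ((a + b) / 2 * p) * Real.exp (-((a - b) / 2)) := by ring
      rw [this, ← Real.exp_add, ← Real.exp_add]
      congr 2 <;> ring
    have e2 : Real.exp (a * p) - Real.exp (b * p) =
        2 * Real.exp ((a + b) / 2 * p) * Real.sinh (p * ((a - b) / 2)) := by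
      rw [Real.sinh_eq]
      have : 2 * Real.exp ((a + b) / 2 * p) * ((Real.exp (p * ((a - b) / 2)) -
          Real.exp (-(p * ((a - b) / 2)))) / 2) =
          Real.exp ((a + b) / 2 * p) * Real.exp (p * ((a - b) / 2)) -
          Real.exp ((a + b) / 2 * p) * Real.exp (-(p * ((a - b) / 2))) := by ring
      rw [this, ← Real.exp_add, ← Real.exp_add]
      congr 2 <;> ring
    rw [e1, e2]
    have h3 : 0 < 2 * Real.exp ((a + b) / 2 * p) := by positivity
    nlinarith [mul_le_mul_of_nonneg_left hs h3.le]

end Pool.Agent.KRE
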