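import Pool.Agent.KRE.Bas
import Pool.Agent.KRC.Fac
import Pool.Agent.KRB.Rem

/-!
# FCT: the factorisation
-/

set_option autoImplicit false

namespace Pool.Agent.KRE

open Complex MeasureTheory Set Filter Topology Metric
open Pool.Agent.KRC (An)

namespace FCTAux

theorem eval_eq (P : Polynomial ℂ) (z : ℂ) : P.eval z = P.leadingCoeff * Pm P.roots z := by
  rw [(IsAlgClosed.splits P).eval_eq_prod_roots]
  rfl

end FCTAux

open FCTAux in
theorem fct : S_FCT := by
  intro f g c hc0 hc1 hf hg hne hle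
  obtain ⟨P, g₁, hP, hg₁, he, hPne, hg₁ne⟩ := Pool.Agent.KRC.FACAux.facg hc1 hg hne
  have hlead : P.leadingCoeff ≠ 0 := Polynomial.leadingCoeff_ne_zero.2 hP
  obtain ⟨ω, hω, hωe⟩ := Pool.Agent.KRB.rem f g c hc0.le hf hg (by
    obtain ⟨z, hz, hz0⟩ := hne
    exact ⟨z, mem_ball_zero_iff.1 hz, hz0⟩) (fun z h1 h2 => hle z ⟨h1, h2⟩)
  have hωd : ∀ z ∈ An c, DifferentiableAt ℂ ω z := fun z hz =>
    (hω z hz).differentiableAt ((Pool.Agent.KRC.Bas.isOpen_An c).mem_nhds hz)
  by_cases hcase : ∃ z ∈ An c, ‖ω z‖ = 1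
  · left
    obtain ⟨z₁, hz₁, h1⟩ := hcase
    refine ⟨ω z₁, h1, ?_⟩
    have hm : IsLocalMax (norm ∘ ω) z₁ := by
      filter_upwards [(Pool.Agent.KRC.Bas.isOpen_An c).mem_nhds hz₁] with w hw
      simp only [Function.comp_apply, h1]
      exact (hωe w hw.1 hw.2).2
    have h2 := Complex.eventually_eq_of_isLocalMax_norm
      (by filter_upwards [(Pool.Agent.KRC.Bas.isOpen_An c).mem_nhds hz₁] with w hw
          using hωd w hw) hm
    have hd : DifferentiableOn ℂ (fun z => f z - ω z₁ * g z) (ball 0 1) :=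
      hf.sub (hg.const_mul _)
    have h4 := (hd.analyticOnNhd isOpen_ball).eqOn_zero_of_preconnected_of_eventuallyEq_zero
      (convex_ball (0 : ℂ) 1).isPreconnected (Pool.Agent.KRC.Bas.An_sub c hz₁)
      (by
        filter_upwards [h2, (Pool.Agent.KRC.Bas.isOpen_An c).mem_nhds hz₁] with w hw1 hw2
        have h3 := (hωe w hw2.1 hw2.2).1
        show f w - ω z₁ * g w = 0
        rw [h3, hw1, sub_self])
    intro z hz
    have h5 : f z - ω z₁ * g z = 0 := h4 hz
    linear_combination h5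
  · right
    push Not at hcase
    set g₀ : ℂ → ℂ := fun z => P.leadingCoeff * g₁ z with hg₀
    have hg₀d : DifferentiableOn ℂ g₀ (ball 0 1) := hg₁.const_mul _
    have hg₀ne : ∀ z : ℂ, ‖z‖ ≤ c → g₀ z ≠ 0 := fun z hz => mul_ne_zero hlead (hg₁ne z hz)
    have hge : ∀ z ∈ ball (0 : ℂ) 1, g z = Pm P.roots z * g₀ z := by
      intro z hz
      rw [he z hz, eval_eq, hg₀]
      ring
    set F : ℂ → ℂ := fun z => if ‖z‖ ≤ c then f z / g₀ z else ω z * Pm P.roots z with hF
    have hFe : ∀ z ∈ ball (0 : ℂ) 1, f z = F z * g₀ z := by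
      intro z hz
      by_cases h1 : ‖z‖ ≤ c
      · simp only [hF, if_pos h1]
        field_simp [hg₀ne z h1]
      · simp only [hF, if_neg h1]
        rw [(hωe z (not_le.1 h1) (mem_ball_zero_iff.1 hz)).1, hge z hz]
        ring
    have hs : ∀ a ∈ P.roots, ‖a‖ ≤ c := by
      intro a ha
      by_contra h1
      exact hPne a (not_le.1 h1) ((Polynomial.mem_roots hP).1 ha)
    refine ⟨P.roots, F, g₀, ⟨hs, ?_, ?_⟩, hg₀d, fun z hz => ⟨hge z hz, hFe z hz⟩⟩
    · intro z hz
      have hg₀z : DifferentiableAt ℂ g₀ z := (hg₀d z hz).differentiableAt (isOpen_ball.mem_nhds hz)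
      have hfz : DifferentiableAt ℂ f z := (hf z hz).differentiableAt (isOpen_ball.mem_nhds hz)
      apply DifferentiableAt.differentiableWithinAt
      by_cases h1 : ‖z‖ ≤ c
      · have h2 : DifferentiableAt ℂ (fun w => f w / g₀ w) z := hfz.div hg₀z (hg₀ne z h1)
        refine h2.congr_of_eventuallyEq ?_
        filter_upwards [hg₀z.continuousAt.eventually_ne (hg₀ne z h1), isOpen_ball.mem_nhds hz]
          with w hw1 hw2
        rw [hFe w hw2]
        field_simp
      · have hzA : z ∈ An c := ⟨not_le.1 h1, mem_ball_zero_iff.1 hz⟩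
        have h2 : DifferentiableAt ℂ (fun w => ω w * Pm P.roots w) z :=
          (hωd z hzA).mul (Bas.Pm_diff _ z)
        refine h2.congr_of_eventuallyEq ?_
        filter_upwards [(Pool.Agent.KRC.Bas.isOpen_An c).mem_nhds hzA] with w hw
        simp only [hF, if_neg (not_le.2 hw.1)]
    · intro z hz
      simp only [hF, if_neg (not_le.2 hz.1)]
      rw [norm_mul]
      have h1 : 0 < ‖Pm P.roots z‖ := norm_pos_iff.2 (Bas.Pm_ne hs hz.1)
      have h2 : ‖ω z‖ < 1 := lt_of_le_of_ne (hωe z hz.1 hz.2).2 (hcase z hz)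
      calc ‖ω z‖ * ‖Pm P.roots z‖ < 1 * ‖Pm P.roots z‖ := mul_lt_mul_of_pos_right h2 h1
        _ = ‖Pm P.roots z‖ := one_mul _

end Pool.Agent.KRE
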