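import Pool.Agent.KRE.Stmts
import Pool.Agent.KRB.Fin

/-!
# The exact order of `1 - κ_p`: conclusion
-/

set_option autoImplicit false

namespace Pool.Agent.KRE

open Set
open Pool.Agent.KRB (KP kap kap_bdd kap_nonneg kap_le S_UP)

theorem le_kap (hL : S_LW) {p : ℝ} (hp : 1 ≤ p) : 1 - 2300 / √p ≤ kap p := by
  by_cases h : 0 < 1 - 2300 / √p
  · have hs : 0 < √p := Real.sqrt_pos.2 (by linarith)
    have h1 : 2300 / √p < 1 := by linarith
    have h2 : 2300 < √p := by rwa [div_lt_one hs] at h1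
    have h3 : 2 ≤ p := by
      have h4 : √p * √p = p := Real.mul_self_sqrt (by linarith)
      nlinarith
    have h5 : 1 - 2300 / √p < 1 := by
      have : 0 < 2300 / √p := by positivity
      linarith
    exact le_csSup (kap_bdd p) ⟨h, h5, hL p _ h3 h h5 le_rfl⟩
  · exact (not_lt.1 h).trans (kap_nonneg p)

theorem fin (hU : S_UP) (hL : S_LW) :
    (∀ p : ℝ, 1 ≤ p → 1 / (40 * √p) ≤ 1 - kap p ∧ 1 - kap p ≤ 2300 / √p) ∧
    ∀ p₁ p₂ : ℝ, 1 ≤ p₁ → 10 ^ 10 * p₁ ≤ p₂ → kap p₁ < kap p₂ := by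
  refine ⟨fun p hp => ⟨by linarith [kap_le hU hp], by linarith [le_kap hL hp]⟩, ?_⟩
  intro p₁ p₂ h1 h2
  have hp1 : 0 < p₁ := by linarith
  have hp2 : 1 ≤ p₂ := by linarith
  have hs1 : 0 < √p₁ := Real.sqrt_pos.2 hp1
  have hs2 : 0 < √p₂ := Real.sqrt_pos.2 (by linarith)
  have h3 : 100000 * √p₁ ≤ √p₂ := by
    apply Real.le_sqrt_of_sq_le
    rw [mul_pow, Real.sq_sqrt hp1.le]
    linarith
  have h4 : 2300 / √p₂ < 1 / (40 * √p₁) := by
    rw [div_lt_div_iff₀ hs2 (by positivity)]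
    linarith
  have h5 := kap_le hU h1
  have h6 := le_kap hL hp2
  linarith

end Pool.Agent.KRE
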