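import Pool.Agent.KRE.Bas
import Pool.Agent.KRB.Gain

/-!
# `S_GNP`: the gain from all zeros
-/

set_option autoImplicit false

namespace Pool.Agent.KRE

open Complex MeasureTheory Set Filter Topology Metric
open Pool.Agent.KRC (An)

/-- **The gain** from all zeros. -/
theorem gnp : S_GNP := by
  intro s c₁ ρ hs hc h1 h2
  have h0 : 0 < ρ := by linarith
  induction s using Multiset.induction_on with
  | empty =>
    refine ⟨fun _ => 1, differentiableOn_const _, fun z _ => ?_, fun z _ => ?_⟩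
    · rw [Bas.Pm_zero, Bas.Pr_zero]
      simp
    · simp
  | cons a s ih =>
    obtain ⟨E, hE1, hE2, hE3⟩ := ih fun b hb => hs b (Multiset.mem_cons_of_mem hb)
    obtain ⟨E', hE1', hE2', hE3'⟩ :=
      Pool.Agent.KRB.gain a c₁ ρ (hs a (Multiset.mem_cons_self a s)) hc h1 h2
    refine ⟨fun z => E' z * E z, hE1'.mul hE1, fun z hz => ?_, fun z hz => ?_⟩
    · rw [Bas.Pm_cons, Bas.Pr_cons, norm_mul, norm_mul, norm_mul]
      have e1 := hE2 z hz
      have e2 := hE2' z hz
      calc ‖E' z‖ * ‖E z‖ * (‖z - a‖ * ‖Pm s z‖) = (‖E' z‖ * ‖z - a‖) * (‖E z‖ * ‖Pm s z‖) := by ring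
        _ ≤ ‖((ρ : ℂ) ^ 2 - (starRingEnd ℂ) a * z) / ρ‖ * ‖Pr s ρ z‖ := by
          refine mul_le_mul ?_ e1 (by positivity) (by positivity)
          rw [norm_div, norm_real, Real.norm_of_nonneg h0.le, le_div_iff₀ h0]
          calc ‖E' z‖ * ‖z - a‖ * ρ = ‖E' z‖ * (ρ * ‖z - a‖) := by ring
            _ ≤ _ := e2
    · rw [norm_mul, Multiset.card_cons]
      have e1 := hE3 z hz
      have e2 := hE3' z hz
      have e3 : ((Multiset.card s + 1 : ℕ) : ℝ) * ((ρ - c₁) * (ρ - ‖z‖) / 16) =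
          (ρ - c₁) * (ρ - ‖z‖) / 16 + (Multiset.card s : ℝ) * ((ρ - c₁) * (ρ - ‖z‖) / 16) := by
        push_cast
        ring
      rw [e3, Real.exp_add]
      exact mul_le_mul e2 e1 (Real.exp_pos _).le (norm_nonneg _)

end Pool.Agent.KRE
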