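import Pool.Agent.KRE.Bas
import Pool.Agent.KRC.Fac

/-!
# The number of zeros of `Pm s - conj b F`
-/

set_option autoImplicit false

namespace Pool.Agent.KRE

open Complex MeasureTheory Set Filter Topology Metric
open Pool.Agent.KRC (An)

namespace GZAux

theorem re_pos {w : ℂ} (hw : ‖w‖ < 1) : 0 < (1 - w).re := by
  have h1 := (abs_le.mp (Complex.abs_re_le_norm w)).2
  rw [Complex.sub_re, Complex.one_re]
  linarith

/-- the factors as exponentials -/
theorem exists_exp {c : ℝ} (hc0 : 0 < c) (s : Multiset ℂ) (hs : ∀ a ∈ s, ‖a‖ ≤ c) :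
    ∃ A : ℂ → ℂ, (∀ z ∈ An c, DifferentiableAt ℂ A z) ∧
      ∀ z ∈ An c, Pm s z = z ^ Multiset.card s * cexp (A z) := by
  induction s using Multiset.induction with
  | empty => exact ⟨0, fun z _ => differentiableAt_const 0, fun z _ => by simp [Bas.Pm_zero]⟩
  | cons a s ih =>
    obtain ⟨A, hA1, hA2⟩ := ih fun x hx => hs x (Multiset.mem_cons_of_mem hx)
    have ha := hs a (Multiset.mem_cons_self a s)
    have hz0 : ∀ z ∈ An c, z ≠ 0 := by
      intro z hz h
      have h1 := hz.1
      rw [h, norm_zero] at h1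
      linarith
    have hlt : ∀ z ∈ An c, ‖a / z‖ < 1 := by
      intro z hz
      rw [norm_div, div_lt_one (norm_pos_iff.mpr (hz0 z hz))]
      exact ha.trans_lt hz.1
    refine ⟨fun z => A z + Complex.log (1 - a / z), ?_, ?_⟩
    · intro z hz
      refine (hA1 z hz).add ?_
      apply DifferentiableAt.clog
      · exact (differentiableAt_const _).sub ((differentiableAt_const _).div differentiableAt_id
          (hz0 z hz))
      · exact Or.inl (re_pos (hlt z hz))
    · intro z hz
      have h1 : (1 : ℂ) - a / z ≠ 0 := by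
        intro h
        have h2 := re_pos (hlt z hz)
        rw [h] at h2
        simp at h2
      rw [Bas.Pm_cons, hA2 z hz, Complex.exp_add, Complex.exp_log h1, Multiset.card_cons, pow_succ]
      have h2 := hz0 z hz
      field_simp

/-- comparison of the exponents -/
theorem cnt {c : ℝ} (hc0 : 0 < c) (hc : c < 1) {k n : ℕ} {G M : ℂ → ℂ}
    (hG : DifferentiableOn ℂ G (ball 0 1)) (hG0 : ∀ z ∈ ball (0 : ℂ) 1, G z ≠ 0)
    (hM : ∀ z ∈ An c, DifferentiableAt ℂ M z)
    (he : ∀ z ∈ An c, z ^ k * G z = z ^ n * cexp (M z)) : k = n := by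
  set r : ℝ := (1 + c) / 2 with hr
  have hr0 : 0 < r := by rw [hr]; linarith
  have hr1 : r < 1 := by rw [hr]; linarith
  have hcr : c < r := by rw [hr]; linarith
  have hGd : DifferentiableOn ℂ (deriv G) (ball 0 1) := hG.deriv isOpen_ball
  have hq : DifferentiableOn ℂ (fun z => deriv G z / G z) (ball 0 1) := hGd.div hG hG0
  have hsub : closedBall (0 : ℂ) r ⊆ ball 0 1 := closedBall_subset_ball hr1
  have hI : (∮ z in C(0, r), deriv G z / G z) = 0 := by
    apply Complex.circleIntegral_eq_zero_of_differentiable_on_off_countable hr0.le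
      Set.countable_empty
    · exact hq.continuousOn.mono hsub
    · intro z hz
      exact hq.differentiableAt (isOpen_ball.mem_nhds (hsub (ball_subset_closedBall hz.1)))
  have hder : ∀ z ∈ sphere (0 : ℂ) |r|, HasDerivWithinAt M
      (((k : ℂ) - n) * (z - 0)⁻¹ + deriv G z / G z) (sphere (0 : ℂ) |r|) z := by
    intro z hz
    rw [abs_of_pos hr0, mem_sphere_zero_iff_norm] at hz
    have hzA : z ∈ An c := ⟨by rw [hz]; exact hcr, by rw [hz]; exact hr1⟩
    have hzb : z ∈ ball (0 : ℂ) 1 := Pool.Agent.KRC.Bas.An_sub c hzA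
    have hz0 : z ≠ 0 := by
      rintro rfl
      rw [norm_zero] at hz
      exact hr0.ne hz
    have hMz := (hM z hzA).hasDerivAt
    have hGz := (hG.differentiableAt (isOpen_ball.mem_nhds hzb)).hasDerivAt
    have h1 := (hasDerivAt_pow k z).mul hGz
    have h2 := (hasDerivAt_pow n z).mul hMz.cexp
    have hev : (fun w => w ^ k * G w) =ᶠ[𝓝 z] fun w => w ^ n * cexp (M w) := by
      filter_upwards [(Pool.Agent.KRC.Bas.isOpen_An c).mem_nhds hzA] with w hw
      exact he w hw
    have h3 := (h2.congr_of_eventuallyEq hev).unique h1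
    have hp : ∀ m : ℕ, (m : ℂ) * z ^ (m - 1) * z = m * z ^ m := by
      intro m
      cases m with
      | zero => simp
      | succ m => rw [Nat.add_sub_cancel, pow_succ, mul_assoc]
    have h4 := he z hzA
    have hGne := hG0 z hzb
    have hzk : z ^ k ≠ 0 := pow_ne_zero _ hz0
    have h5 : deriv M z = ((k : ℂ) - n) * (z - 0)⁻¹ + deriv G z / G z := by
      rw [sub_zero]
      field_simp
      apply mul_left_cancel₀ hzk
      have h6 : (n : ℂ) * z ^ n * cexp (M z) = n * (z ^ k * G z) := by rw [h4]; ring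
      have h7 : z ^ n * (cexp (M z) * deriv M z) * z = z ^ k * G z * deriv M z * z := by
        rw [h4]; ring
      have h8 := hp n
      have h9 := hp k
      linear_combination z * h3 - h7 - h6 - cexp (M z) * h8 + G z * h9
    rw [← h5]
    exact hMz.hasDerivWithinAt
  have hz := circleIntegral.integral_eq_zero_of_hasDerivWithinAt' hder
  have hne : ∀ z ∈ sphere (0 : ℂ) r, z - 0 ≠ 0 := by
    intro z hz h
    rw [sub_zero] at h
    rw [h, mem_sphere_zero_iff_norm, norm_zero] at hz
    exact hr0.ne hz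
  rw [circleIntegral.integral_add, hI, add_zero, circleIntegral.integral_const_mul,
    circleIntegral.integral_sub_center_inv _ hr0.ne'] at hz
  · have h1 := (mul_eq_zero.mp hz).resolve_right Complex.two_pi_I_ne_zero
    have h2 : (k : ℂ) = n := sub_eq_zero.mp h1
    exact_mod_cast h2
  · apply ContinuousOn.circleIntegrable hr0.le
    exact continuousOn_const.mul ((continuousOn_id.sub continuousOn_const).inv₀ hne)
  · apply ContinuousOn.circleIntegrable hr0.le
    exact hq.continuousOn.mono (sphere_subset_closedBall.trans hsub)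

end GZAux

theorem gz : S_GZ := by
  intro c s F b hc0 hc hP hb
  set G : ℂ → ℂ := fun z => Pm s z - (starRingEnd ℂ) b * F z with hG
  have hGd : DifferentiableOn ℂ G (ball 0 1) :=
    (Bas.Pm_diff s).differentiableOn.sub (hP.dF.const_mul _)
  have hlt : ∀ z ∈ An c, ‖(starRingEnd ℂ) b * F z / Pm s z‖ < 1 := by
    intro z hz
    have h0 := Bas.Pm_ne hP.hs hz.1
    rw [norm_div, norm_mul, RCLike.norm_conj, div_lt_one (norm_pos_iff.mpr h0)]
    calc ‖b‖ * ‖F z‖ ≤ 1 * ‖F z‖ := mul_le_mul_of_nonneg_right hb.le (norm_nonneg _)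
      _ < ‖Pm s z‖ := by rw [one_mul]; exact hP.lt z hz
  have hone : ∀ z ∈ An c, (1 : ℂ) - (starRingEnd ℂ) b * F z / Pm s z ≠ 0 := by
    intro z hz h
    have h2 := GZAux.re_pos (hlt z hz)
    rw [h] at h2
    simp at h2
  have hGe : ∀ z ∈ An c, G z = Pm s z *
      cexp (Complex.log (1 - (starRingEnd ℂ) b * F z / Pm s z)) := by
    intro z hz
    have h0 := Bas.Pm_ne hP.hs hz.1
    rw [Complex.exp_log (hone z hz)]
    show Pm s z - (starRingEnd ℂ) b * F z = _
    field_simp
  have hGne : ∀ z ∈ An c, G z ≠ 0 := by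
    intro z hz
    rw [hGe z hz]
    exact mul_ne_zero (Bas.Pm_ne hP.hs hz.1) (Complex.exp_ne_zero _)
  have hp : (((c + 1) / 2 : ℝ) : ℂ) ∈ An c := by
    constructor
    · rw [Complex.norm_real, Real.norm_of_nonneg (by linarith)]
      linarith
    · rw [Complex.norm_real, Real.norm_of_nonneg (by linarith)]
      linarith
  obtain ⟨P, g, hP0, hg, he, hPne, hgne⟩ := Pool.Agent.KRC.FACAux.facg hc hGd
    ⟨_, Pool.Agent.KRC.Bas.An_sub c hp, hGne _ hp⟩
  have hl : P.leadingCoeff ≠ 0 := Polynomial.leadingCoeff_ne_zero.mpr hP0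
  have hev : ∀ z, P.eval z = P.leadingCoeff * Pm P.roots z := by
    intro z
    rw [(IsAlgClosed.splits P).eval_eq_prod_roots z]
    rfl
  have hroots : ∀ a ∈ P.roots, ‖a‖ ≤ c := by
    intro a ha
    by_contra h
    exact hPne a (not_le.mp h) (Polynomial.isRoot_of_mem_roots ha)
  have hG₁d : DifferentiableOn ℂ (fun z => P.leadingCoeff * g z) (ball 0 1) := hg.const_mul _
  have hG₁ : ∀ z ∈ ball (0 : ℂ) 1, P.leadingCoeff * g z ≠ 0 := by
    intro z hz
    apply mul_ne_zero hl
    rcases le_or_gt ‖z‖ c with h | h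
    · exact hgne z h
    · have hzA : z ∈ An c := ⟨h, mem_ball_zero_iff.mp hz⟩
      have h1 := hGne z hzA
      rw [he z hz] at h1
      exact right_ne_zero_of_mul h1
  have hfac : ∀ z ∈ ball (0 : ℂ) 1, G z = Pm P.roots z * (P.leadingCoeff * g z) := by
    intro z hz
    rw [he z hz, hev z]
    ring
  refine ⟨P.roots, fun z => P.leadingCoeff * g z, hroots, ?_, hG₁d, hG₁, hfac⟩
  obtain ⟨A, hA1, hA2⟩ := GZAux.exists_exp hc0 s hP.hs
  obtain ⟨B, hB1, hB2⟩ := GZAux.exists_exp hc0 P.roots hroots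
  apply GZAux.cnt (M := fun z => A z +
    Complex.log (1 - (starRingEnd ℂ) b * F z / Pm s z) - B z) hc0 hc hG₁d hG₁
  · intro z hz
    have h0 := Bas.Pm_ne hP.hs hz.1
    have hFz := hP.dF.differentiableAt (isOpen_ball.mem_nhds (Pool.Agent.KRC.Bas.An_sub c hz))
    refine ((hA1 z hz).add ?_).sub (hB1 z hz)
    apply DifferentiableAt.clog
    · exact (differentiableAt_const _).sub ((hFz.const_mul _).div (Bas.Pm_diff s z) h0)
    · exact Or.inl (GZAux.re_pos (hlt z hz))
  · intro z hz
    have h1 := hfac z (Pool.Agent.KRC.Bas.An_sub c hz)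
    have h3 := hA2 z hz
    rw [hGe z hz, hB2 z hz] at h1
    rw [Complex.exp_sub, Complex.exp_add]
    have h2 := Complex.exp_ne_zero (B z)
    rw [mul_div_assoc', eq_div_iff h2]
    linear_combination -h1 + cexp (Complex.log (1 - (starRingEnd ℂ) b * F z / Pm s z)) * h3

end Pool.Agent.KRE
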