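import Pool.Agent.KRE.Stmts
import Mathlib.Analysis.Complex.Poisson

/-!
# Harnack along a radius
-/

set_option autoImplicit false

namespace Pool.Agent.KRE

open Complex MeasureTheory Set Filter Topology Metric

namespace HNKAux

theorem contPK {ρ : ℝ} {z : ℂ} (hz : z ∈ ball (0 : ℂ) ρ) :
    ContinuousOn (fun w : ℂ => poissonKernel 0 z w) (sphere (0 : ℂ) ρ) := by
  unfold poissonKernel
  refine ContinuousOn.div (by fun_prop) (by fun_prop) fun w hw => ?_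
  have h1 : ‖w‖ = ρ := mem_sphere_zero_iff_norm.1 hw
  have h2 : ‖z‖ < ρ := mem_ball_zero_iff.1 hz
  have h3 : w - z ≠ 0 := by
    intro h
    rw [sub_eq_zero.1 h] at h1
    linarith
  simp only [sub_zero]
  exact pow_ne_zero 2 (norm_ne_zero_iff.2 h3)

theorem intR {H : ℂ → ℂ} {ρ : ℝ} (hρ : 0 ≤ ρ) (hH : Differentiable ℂ H) {z : ℂ}
    (hz : z ∈ ball (0 : ℂ) ρ) :
    CircleIntegrable (fun w : ℂ => poissonKernel 0 z w * (H w).re) 0 ρ := by
  refine ContinuousOn.circleIntegrable hρ ((contPK hz).mul ?_)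
  exact (continuous_re.comp hH.continuous).continuousOn

theorem poisR {H : ℂ → ℂ} {ρ : ℝ} (hρ : 0 ≤ ρ) (hH : Differentiable ℂ H) {z : ℂ}
    (hz : z ∈ ball (0 : ℂ) ρ) :
    (H z).re = Real.circleAverage (fun w : ℂ => poissonKernel 0 z w * (H w).re) 0 ρ := by
  have h1 := (hH.diffContOnCl (s := ball (0 : ℂ) ρ)).circleAverage_poissonKernel_smul hz
  have h2 : CircleIntegrable (poissonKernel 0 z • H) 0 ρ := by
    refine ContinuousOn.circleIntegrable hρ ?_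
    exact (contPK hz).smul hH.continuous.continuousOn
  have h3 := Complex.reCLM.circleAverage_comp_comm h2
  rw [h1] at h3
  have h4 : (Complex.reCLM ∘ (poissonKernel 0 z • H)) =
      fun w : ℂ => poissonKernel 0 z w * (H w).re := by
    funext w
    simp [Pi.smul_apply']
  rw [h4] at h3
  exact h3.symm

theorem kern {ρ ρb r t : ℝ} (h0 : 0 ≤ r) (h1 : r ≤ ρb) (h2 : ρb < ρ) {w : ℂ} (hw : ‖w‖ = ρ) :
    poissonKernel 0 (r * cexp (t * I)) w ≤
      8 * ((ρ - r) / (ρ - ρb)) * poissonKernel 0 (ρb * cexp (t * I)) w := by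
  have hb0 : 0 ≤ ρb := h0.trans h1
  have hρ : 0 < ρ := lt_of_le_of_lt hb0 h2
  have e1 : ‖(r : ℂ) * cexp (t * I)‖ = r := by
    rw [norm_mul, norm_exp_ofReal_mul_I, mul_one, norm_real, Real.norm_of_nonneg h0]
  have e2 : ‖(ρb : ℂ) * cexp (t * I)‖ = ρb := by
    rw [norm_mul, norm_exp_ofReal_mul_I, mul_one, norm_real, Real.norm_of_nonneg hb0]
  have e3 : ‖(r : ℂ) * cexp (t * I) - (ρb : ℂ) * cexp (t * I)‖ = ρb - r := by
    rw [← sub_mul, norm_mul, norm_exp_ofReal_mul_I, mul_one, ← ofReal_sub, norm_real,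
      Real.norm_eq_abs, abs_sub_comm, abs_of_nonneg (by linarith)]
  unfold poissonKernel
  simp only [sub_zero]
  rw [e1, e2, hw]
  set z₀ : ℂ := (r : ℂ) * cexp (t * I) with hz₀
  set w₁ : ℂ := (ρb : ℂ) * cexp (t * I) with hw₁
  clear_value z₀ w₁
  -- distances
  have d1 : ρ - r ≤ ‖w - z₀‖ := by
    have := norm_sub_norm_le w z₀
    rw [hw, e1] at this
    exact this
  have d1' : 0 < ‖w - z₀‖ := by linarith
  have d2 : ρ - ρb ≤ ‖w - w₁‖ := by
    have := norm_sub_norm_le w w₁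
    rw [hw, e2] at this
    exact this
  have d2' : 0 < ‖w - w₁‖ := by linarith
  have d3 : ‖w - w₁‖ ≤ 2 * ‖w - z₀‖ := by
    have h : w - w₁ = (w - z₀) + (z₀ - w₁) := by ring
    calc ‖w - w₁‖ = ‖(w - z₀) + (z₀ - w₁)‖ := by rw [h]
      _ ≤ ‖w - z₀‖ + ‖z₀ - w₁‖ := norm_add_le _ _
      _ ≤ 2 * ‖w - z₀‖ := by rw [e3]; linarith
  have d4 : ‖w - w₁‖ ^ 2 ≤ 4 * ‖w - z₀‖ ^ 2 := by nlinarith
  have hA : 0 < ‖w - z₀‖ ^ 2 := by positivity
  have hB : 0 < ‖w - w₁‖ ^ 2 := by positivity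
  have hg : 0 < ρ - ρb := by linarith
  have hr : 0 ≤ ρ - r := by linarith
  -- numerators
  have n1 : ρ ^ 2 - r ^ 2 ≤ 2 * ρ * (ρ - r) := by nlinarith
  have n2 : ρ * (ρ - ρb) ≤ ρ ^ 2 - ρb ^ 2 := by nlinarith
  rw [div_le_iff₀ hA]
  have key : 2 * ρ * (ρ - r) ≤
      8 * ((ρ - r) / (ρ - ρb)) * ((ρ * (ρ - ρb)) / ‖w - w₁‖ ^ 2) * ‖w - z₀‖ ^ 2 := by
    have : 8 * ((ρ - r) / (ρ - ρb)) * ((ρ * (ρ - ρb)) / ‖w - w₁‖ ^ 2) * ‖w - z₀‖ ^ 2 =
        2 * ρ * (ρ - r) * (4 * ‖w - z₀‖ ^ 2 / ‖w - w₁‖ ^ 2) := by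
      field_simp
      ring
    rw [this]
    have h5 : 1 ≤ 4 * ‖w - z₀‖ ^ 2 / ‖w - w₁‖ ^ 2 := by
      rw [le_div_iff₀ hB]
      linarith
    have h6 : 0 ≤ 2 * ρ * (ρ - r) := by positivity
    nlinarith
  refine n1.trans (key.trans ?_)
  refine mul_le_mul_of_nonneg_right ?_ hA.le
  refine mul_le_mul_of_nonneg_left ?_ (by positivity)
  exact div_le_div_of_nonneg_right n2 hB.le

end HNKAux

open HNKAux in
theorem hnk : S_HNK := by
  intro H ρ ρb r t h0 h1 h2 hH hpos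
  have hb0 : 0 ≤ ρb := h0.trans h1
  have hρ : 0 < ρ := lt_of_le_of_lt hb0 h2
  have m1 : (r : ℂ) * cexp (t * I) ∈ ball (0 : ℂ) ρ := by
    rw [mem_ball_zero_iff, norm_mul, norm_exp_ofReal_mul_I, mul_one, norm_real,
      Real.norm_of_nonneg h0]
    linarith
  have m2 : (ρb : ℂ) * cexp (t * I) ∈ ball (0 : ℂ) ρ := by
    rw [mem_ball_zero_iff, norm_mul, norm_exp_ofReal_mul_I, mul_one, norm_real,
      Real.norm_of_nonneg hb0]
    exact h2
  rw [poisR hρ.le hH m1, poisR hρ.le hH m2]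
  have e : 8 * ((ρ - r) / (ρ - ρb)) *
      Real.circleAverage (fun w : ℂ => poissonKernel 0 (ρb * cexp (t * I)) w * (H w).re) 0 ρ =
      Real.circleAverage (fun w : ℂ => (8 * ((ρ - r) / (ρ - ρb))) •
        (poissonKernel 0 (ρb * cexp (t * I)) w * (H w).re)) 0 ρ := by
    rw [Real.circleAverage_fun_smul, smul_eq_mul]
  rw [e]
  refine Real.circleAverage_mono (intR hρ.le hH m1) ?_ ?_
  · refine ContinuousOn.circleIntegrable hρ.le ?_
    simp only [smul_eq_mul]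
    exact continuousOn_const.mul
      ((contPK m2).mul (continuous_re.comp hH.continuous).continuousOn)
  · intro w hw
    rw [abs_of_pos hρ, mem_sphere_zero_iff_norm] at hw
    have hk := kern h0 h1 h2 (t := t) hw
    have hp := hpos w hw
    simp only [smul_eq_mul]
    calc poissonKernel 0 (r * cexp (t * I)) w * (H w).re
        ≤ (8 * ((ρ - r) / (ρ - ρb)) * poissonKernel 0 (ρb * cexp (t * I)) w) * (H w).re :=
          mul_le_mul_of_nonneg_right hk hp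
      _ = _ := by ring

end Pool.Agent.KRE
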