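import Pool.Agent.KRE.Stmts

/-!
# Module INT: the integral of a harmonic function with a radial weight
-/

set_option autoImplicit false

namespace Pool.Agent.KRE

open Complex MeasureTheory Set Filter Topology Metric

namespace INTAux

theorem symm_eq (r θ : ℝ) : Complex.polarCoord.symm (r, θ) = circleMap 0 r θ := by
  rw [Complex.polarCoord_symm_apply]
  unfold circleMap
  rw [zero_add, Complex.exp_mul_I]
  push_cast
  rfl

theorem norm_cm {r : ℝ} (hr : 0 < r) (θ : ℝ) : ‖circleMap 0 r θ‖ = r := by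
  rw [norm_circleMap_zero, abs_of_pos hr]

/-- The angular integral over `(-π, π)`. -/
theorem angular (Φ : ℂ → ℝ) (r : ℝ) :
    ∫ θ in Ioo (-Real.pi) Real.pi, Φ (circleMap 0 r θ) =
      2 * Real.pi * Real.circleAverage Φ 0 r := by
  have h1 : Real.circleAverage Φ 0 r =
      (2 * Real.pi)⁻¹ • ∫ θ in (-Real.pi)..Real.pi, Φ (circleMap 0 r θ) := by
    rw [Real.circleAverage_eq_integral_add (-Real.pi),
      intervalIntegral.integral_comp_add_right (fun θ => Φ (circleMap 0 r θ))]
    congr 2
    · ring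
    · ring
  rw [h1, intervalIntegral.integral_of_le (by linarith [Real.pi_pos]),
    integral_Ioc_eq_integral_Ioo, smul_eq_mul, ← mul_assoc, mul_inv_cancel₀ (by positivity),
    one_mul]

/-- Polar coordinates in a disc. -/
theorem disc {Φ : ℂ → ℝ} {b : ℝ} (hb : 0 < b) (hΦ : Continuous Φ) :
    ∫ z in closedBall (0 : ℂ) b, Φ z =
      ∫ r in Ioo 0 b, r * (2 * Real.pi * Real.circleAverage Φ 0 r) := by
  have hcon : Continuous (fun p : ℝ × ℝ => p.1 * Φ (circleMap 0 p.1 p.2)) :=
    continuous_fst.mul (hΦ.comp (Real.circleMap.continuous (c := 0)))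
  have hpi := Real.pi_pos
  have h0 : ∫ z in closedBall (0 : ℂ) b, Φ z = ∫ z in ball (0 : ℂ) b, Φ z := by
    refine setIntegral_congr_set ?_
    rw [ae_eq_set]
    constructor
    · rw [closedBall_diff_ball]
      exact Measure.addHaar_sphere volume 0 b
    · rw [diff_eq_empty.2 ball_subset_closedBall]
      exact measure_empty
  rw [h0, ← integral_indicator measurableSet_ball, ← Complex.integral_comp_polarCoord_symm,
    polarCoord_target]
  have h2 : ∫ p in Ioi (0 : ℝ) ×ˢ Ioo (-Real.pi) Real.pi,
      p.1 • ((ball (0 : ℂ) b).indicator Φ (Complex.polarCoord.symm p)) =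
      ∫ p in Ioi (0 : ℝ) ×ˢ Ioo (-Real.pi) Real.pi,
        (Ioo 0 b ×ˢ Ioo (-Real.pi) Real.pi).indicator
          (fun p : ℝ × ℝ => p.1 * Φ (circleMap 0 p.1 p.2)) p := by
    refine setIntegral_congr_fun (measurableSet_Ioi.prod measurableSet_Ioo) ?_
    rintro ⟨r, θ⟩ ⟨hr, hθ⟩
    have hr' : 0 < r := hr
    show r • ((ball (0 : ℂ) b).indicator Φ (Complex.polarCoord.symm (r, θ))) = _
    rw [symm_eq, smul_eq_mul]
    by_cases hm : r ∈ Ioo 0 b
    · rw [indicator_of_mem (show (r, θ) ∈ Ioo 0 b ×ˢ Ioo (-Real.pi) Real.pi from ⟨hm, hθ⟩),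
        indicator_of_mem]
      rw [mem_ball_zero_iff, norm_cm hr']
      exact hm.2
    · rw [indicator_of_notMem (show (r, θ) ∉ Ioo 0 b ×ˢ Ioo (-Real.pi) Real.pi from
        fun h => hm h.1), indicator_of_notMem, mul_zero]
      intro h
      rw [mem_ball_zero_iff, norm_cm hr'] at h
      exact hm ⟨hr', h⟩
  rw [h2, setIntegral_indicator (measurableSet_Ioo.prod measurableSet_Ioo)]
  have h3 : Ioi (0 : ℝ) ×ˢ Ioo (-Real.pi) Real.pi ∩ Ioo 0 b ×ˢ Ioo (-Real.pi) Real.pi =
      Ioo 0 b ×ˢ Ioo (-Real.pi) Real.pi := by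
    apply inter_eq_right.2
    rintro ⟨r, θ⟩ ⟨hr, hθ⟩
    exact ⟨hr.1, hθ⟩
  rw [h3, Measure.volume_eq_prod, setIntegral_prod]
  · refine setIntegral_congr_fun measurableSet_Ioo fun r _ => ?_
    show ∫ θ in Ioo (-Real.pi) Real.pi, r * Φ (circleMap 0 r θ) = _
    rw [MeasureTheory.integral_const_mul, angular]
  · rw [← Measure.volume_eq_prod]
    refine IntegrableOn.mono_set ?_ (prod_mono Ioo_subset_Icc_self Ioo_subset_Icc_self)
    exact hcon.continuousOn.integrableOn_compact (isCompact_Icc.prod isCompact_Icc)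

theorem avg_re {H : ℂ → ℂ} (hH : Differentiable ℂ H) (r : ℝ) :
    Real.circleAverage (fun z => (H z).re) 0 r = (H 0).re := by
  apply InnerProductSpace.HarmonicOnNhd.circleAverage_eq
  intro z _
  exact (hH.analyticAt z).harmonicAt_re

end INTAux

open INTAux in
theorem intg : S_INT := by
  intro H l c ρ hl hc hcρ hρ hH hpos
  have hpi := Real.pi_pos
  have hre : Continuous (fun z => (H z).re) := Complex.continuous_re.comp hH.continuous
  have hH0 : 0 ≤ (H 0).re := by
    rw [← avg_re hH ρ]
    apply Real.circleAverage_nonneg_of_nonneg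
    intro w hw
    rw [abs_of_pos (hc.trans hcρ)] at hw
    exact hpos w (by simpa using hw)
  have hΦ : Continuous (fun z : ℂ => Real.exp (-(l * (ρ - ‖z‖))) * (H z).re) :=
    (by fun_prop : Continuous fun z : ℂ => Real.exp (-(l * (ρ - ‖z‖)))).mul hre
  rw [disc hc hΦ]
  have h1 : ∀ r ∈ Ioo 0 c, r * (2 * Real.pi *
      Real.circleAverage (fun z : ℂ => Real.exp (-(l * (ρ - ‖z‖))) * (H z).re) 0 r) =
      r * (2 * Real.pi * (Real.exp (-(l * (ρ - r))) * (H 0).re)) := by
    intro r hr
    have h2 : Real.circleAverage (fun z : ℂ => Real.exp (-(l * (ρ - ‖z‖))) * (H z).re) 0 r =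
        Real.circleAverage (fun z : ℂ => Real.exp (-(l * (ρ - r))) • (H z).re) 0 r := by
      apply Real.circleAverage_congr_sphere
      intro z hz
      rw [abs_of_pos hr.1] at hz
      have hz' : ‖z‖ = r := by simpa using hz
      simp only [hz', smul_eq_mul]
    rw [h2, Real.circleAverage_fun_smul, avg_re hH, smul_eq_mul]
  rw [setIntegral_congr_fun measurableSet_Ioo h1]
  have hc1 : Continuous (fun r : ℝ => r * (2 * Real.pi * (Real.exp (-(l * (ρ - r))) * (H 0).re))) := by
    fun_prop
  have hc2 : Continuous (fun r : ℝ => 2 * Real.pi * (H 0).re * Real.exp (-(l * (ρ - r)))) := by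
    fun_prop
  calc ∫ r in Ioo 0 c, r * (2 * Real.pi * (Real.exp (-(l * (ρ - r))) * (H 0).re))
      ≤ ∫ r in Ioo 0 c, 2 * Real.pi * (H 0).re * Real.exp (-(l * (ρ - r))) := by
        refine setIntegral_mono_on
          ((hc1.continuousOn.integrableOn_compact isCompact_Icc).mono_set Ioo_subset_Icc_self)
          ((hc2.continuousOn.integrableOn_compact isCompact_Icc).mono_set Ioo_subset_Icc_self)
          measurableSet_Ioo ?_
        intro r hr
        have h3 : r ≤ 1 := by linarith [hr.2]
        have h4 : 0 ≤ 2 * Real.pi * (H 0).re * Real.exp (-(l * (ρ - r))) := by positivity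
        have h5 : r * (2 * Real.pi * (Real.exp (-(l * (ρ - r))) * (H 0).re)) =
            r * (2 * Real.pi * (H 0).re * Real.exp (-(l * (ρ - r)))) := by ring
        rw [h5]
        exact mul_le_of_le_one_left h4 h3
    _ = 2 * Real.pi * (H 0).re * ∫ r in (0 : ℝ)..c, Real.exp (-(l * (ρ - r))) := by
        rw [MeasureTheory.integral_const_mul, intervalIntegral.integral_of_le hc.le,
          integral_Ioc_eq_integral_Ioo]
    _ = 2 * Real.pi * (H 0).re * ((Real.exp (-(l * (ρ - c))) - Real.exp (-(l * (ρ - 0)))) / l) := by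
        congr 1
        have hd : ∀ y ∈ uIcc (0 : ℝ) c, HasDerivAt
            (fun y : ℝ => Real.exp (-(l * (ρ - y))) / l) (Real.exp (-(l * (ρ - y)))) y := by
          intro y _
          have e1 : HasDerivAt (fun y : ℝ => -(l * (ρ - y))) l y := by
            have h := (((hasDerivAt_id y).const_sub ρ).const_mul l).neg
            refine h.congr_deriv ?_
            ring
          have e2 := (e1.exp).div_const l
          refine e2.congr_deriv ?_
          field_simp
        rw [intervalIntegral.integral_eq_sub_of_hasDerivAt hd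
          ((by fun_prop : Continuous fun y : ℝ => Real.exp (-(l * (ρ - y)))).intervalIntegrable
            _ _)]
        ring
    _ ≤ 2 * Real.pi / l * Real.exp (-(l * (ρ - c))) * (H 0).re := by
        have e3 : 2 * Real.pi * (H 0).re *
            ((Real.exp (-(l * (ρ - c))) - Real.exp (-(l * (ρ - 0)))) / l) =
            2 * Real.pi / l * Real.exp (-(l * (ρ - c))) * (H 0).re -
              2 * Real.pi / l * Real.exp (-(l * (ρ - 0))) * (H 0).re := by ring
        rw [e3]
        have e4 : 0 ≤ 2 * Real.pi / l * Real.exp (-(l * (ρ - 0))) * (H 0).re := by positivity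
        linarith

end Pool.Agent.KRE
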