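import Pool.Agent.KRE.Bas
import Pool.Agent.KRB.Pol
import Pool.Agent.KRB.Low0
import Pool.Agent.KRB.Low
import Pool.Agent.KRB.Zf

/-!
# The exact order of `1 - κ_p`: the lower bound for `κ_p`
-/

set_option autoImplicit false

namespace Pool.Agent.KRE

open Complex MeasureTheory Set Filter Topology Metric
open Pool.Agent.KRC (An)
open Pool.Agent.KRB (Berg nrm KP kap)

namespace LWAux

/-- the mean value property for the real part of an entire function -/
theorem mean_re {H : ℂ → ℂ} (hH : Differentiable ℂ H) (ρ : ℝ) :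
    Real.circleAverage (fun w => (H w).re) 0 ρ = (H 0).re := by
  have h1 : CircleIntegrable H 0 ρ := hH.continuous.continuousOn.circleIntegrable'
  have h2 := Complex.reCLM.circleAverage_comp_comm h1
  have h3 : Real.circleAverage H 0 ρ = H 0 :=
    DiffContOnCl.circleAverage hH.diffContOnCl
  rw [h3] at h2
  exact h2

theorem cont_max : Continuous fun t : ℝ => max t 0 := continuous_id.max continuous_const

/-- the bound of the loss on one circle -/
theorem loss (hC : S_CO2) (hE : S_EL) (hI : S_INT) {f g F g₀ : ℂ → ℂ} {s : Multiset ℂ}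
    {η p ρ : ℝ} (hp : 2 ≤ p) (hη : 0 < η) (hη2 : η ≤ 1 / 2) (hq : 638976 ≤ (p - 1) * η ^ 2)
    (h1 : 1 - η / 2 ≤ ρ) (h2 : ρ ≤ 1 - η / 3) (hP : Pair (1 - η) s F) (hn : 1 ≤ Multiset.card s)
    (hf : DifferentiableOn ℂ f (ball 0 1)) (hg : DifferentiableOn ℂ g (ball 0 1))
    (hg0 : DifferentiableOn ℂ g₀ (ball 0 1))
    (hfac : ∀ z ∈ ball (0 : ℂ) 1, g z = Pm s z * g₀ z ∧ f z = F z * g₀ z)
    (hfg : ∀ z : ℂ, 1 - η < ‖z‖ → ‖z‖ < 1 → ‖f z‖ ≤ ‖g z‖) :
    ∫ z in closedBall (0 : ℂ) (1 - η), max (‖f z‖ ^ p - ‖g z‖ ^ p) 0 ≤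
      44 * Real.pi / ((p - 1) * η / 384) * Real.exp (-((p - 1) * η / 384 * (η / 2))) *
        Real.circleAverage (fun z => ‖g z‖ ^ p - ‖f z‖ ^ p) 0 ρ := by
  have hp0 : 0 < p := by linarith
  have hρ0 : 0 < ρ := by linarith
  have hρ1 : ρ < 1 := by linarith
  set l : ℝ := (p - 1) * η / 384 with hl
  have hl0 : 0 < l := by
    rw [hl]
    have : 0 < (p - 1) * η := mul_pos (by linarith) hη
    positivity
  set D : ℂ → ℝ := fun z => ‖g z‖ ^ p - ‖f z‖ ^ p with hD
  have hDc : ContinuousOn D (ball 0 1) := by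
    apply ContinuousOn.sub
    · exact hg.continuousOn.norm.rpow_const (fun _ _ => Or.inr hp0.le)
    · exact hf.continuousOn.norm.rpow_const (fun _ _ => Or.inr hp0.le)
  have hsph : sphere (0 : ℂ) ρ ⊆ ball 0 1 := by
    intro z hz
    rw [mem_sphere_zero_iff_norm] at hz
    rw [mem_ball_zero_iff, hz]
    exact hρ1
  have hcb : closedBall (0 : ℂ) (1 - η) ⊆ ball 0 1 := by
    intro z hz
    rw [mem_closedBall_zero_iff] at hz
    rw [mem_ball_zero_iff]
    linarith
  -- the exponent
  have hexp : ∀ d : ℝ, 0 ≤ d → l * d ≤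
      ((p - 1) * η * Multiset.card s / 192 - 832 * (1 + (Multiset.card s : ℝ)) / η) * d := by
    intro d hd
    apply mul_le_mul_of_nonneg_right _ hd
    have hnR : (1 : ℝ) ≤ Multiset.card s := by exact_mod_cast hn
    set n : ℝ := (Multiset.card s : ℝ) with hnn
    have e1 : 832 * (1 + n) / η ≤ (p - 1) * η * n / 384 := by
      rw [div_le_iff₀ hη]
      have e2 : 638976 * n ≤ (p - 1) * η ^ 2 * n := mul_le_mul_of_nonneg_right hq (by linarith)
      have e3 : (p - 1) * η * n / 384 * η = (p - 1) * η ^ 2 * n / 384 := by ring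
      rw [e3]
      linarith
    have e4 : l ≤ (p - 1) * η * n / 384 := by
      rw [hl]
      have : (p - 1) * η * 1 ≤ (p - 1) * η * n :=
        mul_le_mul_of_nonneg_left hnR (mul_nonneg (by linarith) hη.le)
      linarith
    have e5 : (p - 1) * η * n / 192 = (p - 1) * η * n / 384 + (p - 1) * η * n / 384 := by ring
    rw [e5]
    linarith
  -- for every `ε`
  have key : ∀ ε : ℝ, 0 < ε →
      ∫ z in closedBall (0 : ℂ) (1 - η), max (‖f z‖ ^ p - ‖g z‖ ^ p) 0 ≤
        44 * Real.pi / l * Real.exp (-(l * (η / 2))) * Real.circleAverage D 0 ρ +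
          p * (2 * Real.pi / l * Real.exp (-(l * (η / 2)))) * (2 * ε) := by
    intro ε hε
    have hφc : ContinuousOn (fun z => 22 / p * D z + ε) (sphere (0 : ℂ) ρ) :=
      ((hDc.mono hsph).const_mul _).add continuousOn_const
    obtain ⟨H, hH, hHa⟩ := Bas.approx hρ0 hφc hε
    have hlow : ∀ w : ℂ, ‖w‖ = ρ → 22 * ((‖g w‖ * ‖f w‖) ^ ((p - 1) / 2) * (‖g w‖ - ‖f w‖)) ≤
        (H w).re := by
      intro w hw
      have a1 := (abs_le.1 (hHa w hw)).1
      have a2 := hE ‖g w‖ ‖f w‖ p (norm_nonneg _)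
        (hfg w (by rw [hw]; linarith) (by rw [hw]; exact hρ1)) (by linarith)
      have a3 : 22 * ((‖g w‖ * ‖f w‖) ^ ((p - 1) / 2) * (‖g w‖ - ‖f w‖)) ≤ 22 / p * D w := by
        have a4 : 22 * ((‖g w‖ * ‖f w‖) ^ ((p - 1) / 2) * (‖g w‖ - ‖f w‖)) =
            22 / p * (p * ((‖g w‖ * ‖f w‖) ^ ((p - 1) / 2) * (‖g w‖ - ‖f w‖))) := by
          field_simp
        rw [a4]
        exact mul_le_mul_of_nonneg_left a2 (by positivity)
      linarith
    have hpos : ∀ w : ℂ, ‖w‖ = ρ → 0 ≤ (H w).re := by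
      intro w hw
      refine le_trans ?_ (hlow w hw)
      have a1 := hfg w (by rw [hw]; linarith) (by rw [hw]; exact hρ1)
      have a2 : 0 ≤ ‖g w‖ - ‖f w‖ := by linarith
      positivity
    -- pointwise
    have hpt : ∀ z : ℂ, ‖z‖ ≤ 1 - η → max (‖f z‖ ^ p - ‖g z‖ ^ p) 0 ≤
        p * (Real.exp (-(l * (ρ - ‖z‖))) * (H z).re) := by
      intro z hz
      have b1 := hC f g F g₀ H s η ρ p z hp hη hη2 h1 h2 hP hg0 hfac hH hlow hz
      have b2 : 0 ≤ ρ - ‖z‖ := by linarith
      have b3 := hexp (ρ - ‖z‖) b2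
      set X : ℝ := ‖f z‖ ^ (p - 1) * max (‖f z‖ - ‖g z‖) 0 with hX
      have hX0 : 0 ≤ X := mul_nonneg (by positivity) (le_max_right _ _)
      have b4 : Real.exp (l * (ρ - ‖z‖)) * X ≤ (H z).re :=
        le_trans (mul_le_mul_of_nonneg_right (Real.exp_le_exp.2 b3) hX0) b1
      have b5 : X ≤ Real.exp (-(l * (ρ - ‖z‖))) * (H z).re := by
        have b6 := mul_le_mul_of_nonneg_left b4 (Real.exp_pos (-(l * (ρ - ‖z‖)))).le
        rw [← mul_assoc, ← Real.exp_add, neg_add_cancel, Real.exp_zero, one_mul] at b6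
        exact b6
      have b7 : max (‖f z‖ ^ p - ‖g z‖ ^ p) 0 ≤ p * X := by
        apply max_le _ (mul_nonneg hp0.le hX0)
        refine (Pool.Agent.KRB.LOW0Aux.tangent (by linarith) (norm_nonneg _)
          (norm_nonneg _)).trans ?_
        apply mul_le_mul_of_nonneg_left _ hp0.le
        rw [hX]
        exact mul_le_mul_of_nonneg_left (le_max_left _ _) (by positivity)
      exact b7.trans (mul_le_mul_of_nonneg_left b5 hp0.le)
    -- integrate
    have hI1 : ContinuousOn (fun z => max (‖f z‖ ^ p - ‖g z‖ ^ p) 0)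
        (closedBall (0 : ℂ) (1 - η)) := by
      have h3 := (hDc.mono hcb).neg
      refine (cont_max.comp_continuousOn h3).congr ?_
      intro z _
      simp only [hD, Pi.neg_apply, neg_sub, Function.comp_apply]
    have hI2 : Continuous (fun z : ℂ => p * (Real.exp (-(l * (ρ - ‖z‖))) * (H z).re)) := by
      have := hH.continuous
      fun_prop
    have c1 : ∫ z in closedBall (0 : ℂ) (1 - η), max (‖f z‖ ^ p - ‖g z‖ ^ p) 0 ≤
        ∫ z in closedBall (0 : ℂ) (1 - η), p * (Real.exp (-(l * (ρ - ‖z‖))) * (H z).re) := by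
      apply setIntegral_mono_on
      · exact hI1.integrableOn_compact (isCompact_closedBall _ _)
      · exact hI2.continuousOn.integrableOn_compact (isCompact_closedBall _ _)
      · exact measurableSet_closedBall
      · intro z hz
        rw [mem_closedBall_zero_iff] at hz
        exact hpt z hz
    rw [integral_const_mul] at c1
    have c2 := hI H l (1 - η) ρ hl0 (by linarith) (by linarith) hρ1.le hH hpos
    -- the value at the centre
    have hDs : ContinuousOn D (sphere (0 : ℂ) |ρ|) := by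
      rw [abs_of_pos hρ0]
      exact hDc.mono hsph
    have c3 : (H 0).re ≤ 22 / p * Real.circleAverage D 0 ρ + 2 * ε := by
      rw [← mean_re hH ρ]
      have d1 : Real.circleAverage (fun w => (H w).re) 0 ρ ≤
          Real.circleAverage (fun w => 22 / p * D w + 2 * ε) 0 ρ := by
        apply Real.circleAverage_mono
        · exact (Complex.continuous_re.comp hH.continuous).continuousOn.circleIntegrable'
        · exact ((hDs.const_mul _).add continuousOn_const).circleIntegrable'
        · intro w hw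
          rw [abs_of_pos hρ0, mem_sphere_zero_iff_norm] at hw
          have := (abs_le.1 (hHa w hw)).2
          linarith
      have d2 : Real.circleAverage (fun w => 22 / p * D w + 2 * ε) 0 ρ =
          22 / p * Real.circleAverage D 0 ρ + 2 * ε := by
        rw [Real.circleAverage_fun_add (hDs.const_mul _).circleIntegrable'
          continuousOn_const.circleIntegrable', Real.circleAverage_const]
        congr 1
        have d3 := Real.circleAverage_fun_smul (a := 22 / p) (f := D) (c := 0) (R := ρ)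
        simpa [smul_eq_mul] using d3
      linarith
    have c4 : 0 ≤ (H 0).re := by
      rw [← mean_re hH ρ]
      apply Real.circleAverage_nonneg_of_nonneg
      intro w hw
      rw [abs_of_pos hρ0, mem_sphere_zero_iff_norm] at hw
      exact hpos w hw
    have c5 : Real.exp (-(l * (ρ - (1 - η)))) ≤ Real.exp (-(l * (η / 2))) := by
      apply Real.exp_le_exp.2
      have : l * (η / 2) ≤ l * (ρ - (1 - η)) := mul_le_mul_of_nonneg_left (by linarith) hl0.le
      linarith
    have hpi := Real.pi_pos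
    calc ∫ z in closedBall (0 : ℂ) (1 - η), max (‖f z‖ ^ p - ‖g z‖ ^ p) 0
        ≤ p * ∫ z in closedBall (0 : ℂ) (1 - η), Real.exp (-(l * (ρ - ‖z‖))) * (H z).re := c1
      _ ≤ p * (2 * Real.pi / l * Real.exp (-(l * (ρ - (1 - η)))) * (H 0).re) :=
          mul_le_mul_of_nonneg_left c2 hp0.le
      _ ≤ p * (2 * Real.pi / l * Real.exp (-(l * (η / 2))) * (H 0).re) := by
          apply mul_le_mul_of_nonneg_left _ hp0.le
          apply mul_le_mul_of_nonneg_right _ c4
          exact mul_le_mul_of_nonneg_left c5 (by positivity)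
      _ ≤ p * (2 * Real.pi / l * Real.exp (-(l * (η / 2))) *
            (22 / p * Real.circleAverage D 0 ρ + 2 * ε)) := by
          apply mul_le_mul_of_nonneg_left _ hp0.le
          exact mul_le_mul_of_nonneg_left c3 (by positivity)
      _ = _ := by
          field_simp
          ring
  -- let `ε → 0`
  apply le_of_forall_pos_le_add
  intro δ hδ
  have hpi := Real.pi_pos
  set B : ℝ := p * (2 * Real.pi / l * Real.exp (-(l * (η / 2)))) with hB
  have hB0 : 0 < B := by positivity
  have h3 := key (δ / (2 * B)) (by positivity)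
  have h4 : B * (2 * (δ / (2 * B))) = δ := by field_simp
  rw [h4] at h3
  exact h3

end LWAux

open LWAux

theorem lw (hF : S_FCT) (hC : S_CO2) (hE : S_EL) (hI : S_INT) : S_LW := by
  intro p c hp hc0 hc1 hc
  have hp0 : 0 < p := by linarith
  have hsp : 0 < √p := Real.sqrt_pos.2 hp0
  have hlt : 2300 / √p < 1 := by linarith
  rw [div_lt_one hsp] at hlt
  have hc' : 2300 ≤ (1 - c) * √p := by
    have : 2300 / √p ≤ 1 - c := by linarith
    rwa [div_le_iff₀ hsp] at this
  set η : ℝ := min (1 - c) (1 / 2) with hη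
  have hη2 : η ≤ 1 / 2 := min_le_right _ _
  have hη0 : 0 < η := lt_min (by linarith) (by norm_num)
  have hηs : 1150 ≤ η * √p := by
    rw [hη, min_mul_of_nonneg _ _ hsp.le]
    apply le_min
    · linarith
    · linarith
  have hηp : 1322500 ≤ p * η ^ 2 := by
    have h1 : (1150 : ℝ) ^ 2 ≤ (η * √p) ^ 2 := pow_le_pow_left₀ (by norm_num) hηs 2
    rw [mul_pow, Real.sq_sqrt hp0.le] at h1
    linarith
  have hq : 661250 ≤ (p - 1) * η ^ 2 := by
    have h2 : p / 2 * η ^ 2 ≤ (p - 1) * η ^ 2 :=
      mul_le_mul_of_nonneg_right (by linarith) (by positivity)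
    linarith
  have hcη : c ≤ 1 - η := by
    have : η ≤ 1 - c := min_le_left _ _
    linarith
  refine Pool.Agent.KRB.LOWAux.mono ?_ hcη
  clear_value η
  clear hη hcη hc' hc hc0 hc1
  have hc0 : 0 < 1 - η := by linarith
  have hc1 : 1 - η < 1 := by linarith
  intro f g hf hg hfg
  by_cases hne : ∃ z ∈ ball (0 : ℂ) 1, g z ≠ 0
  swap
  · -- `g = 0`
    push Not at hne
    apply Pool.Agent.KRB.LOW0Aux.nrm_le_of_le hp0 hf hg
    intro z hz
    rw [hne z (mem_ball_zero_iff.2 hz), norm_zero]
    apply le_of_forall_pos_le_add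
    intro ε hε
    have h1 := Pool.Agent.KRB.zf f (fun _ => (ε : ℂ)) (1 - η) hc0 hc1 hf.1
      (differentiableOn_const _)
      (fun w hw1 hw2 => by
        have h2 := hfg w hw1 hw2
        rw [hne w (mem_ball_zero_iff.2 hw2), norm_zero] at h2
        rw [norm_real, Real.norm_of_nonneg hε.le]
        linarith) (fun w _ => by exact_mod_cast hε.ne') z hz
    rw [norm_real, Real.norm_of_nonneg hε.le] at h1
    linarith
  rcases hF f g (1 - η) hc0 hc1 hf.1 hg.1 hne (fun z hz => hfg z hz.1 hz.2) with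
    ⟨u, hu, hfu⟩ | ⟨s, F, g₀, hP, hg0, hfac⟩
  · apply Pool.Agent.KRB.LOW0Aux.nrm_le_of_le hp0 hf hg
    intro z hz
    rw [hfu z (mem_ball_zero_iff.2 hz), norm_mul, hu, one_mul]
  rcases Nat.eq_zero_or_pos (Multiset.card s) with hn | hn
  · -- no zeros
    rw [Multiset.card_eq_zero] at hn
    subst hn
    apply Pool.Agent.KRB.LOW0Aux.nrm_le_of_le hp0 hf hg
    intro z hz
    obtain ⟨e1, e2⟩ := hfac z (mem_ball_zero_iff.2 hz)
    have h1 := Pool.Agent.KRB.zf F (fun _ => (1 : ℂ)) (1 - η) hc0 hc1 hP.dF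
      (differentiableOn_const _)
      (fun w hw1 hw2 => by
        have h2 := hP.lt w ⟨hw1, hw2⟩
        rw [Bas.Pm_zero] at h2
        exact h2.le) (fun w _ => one_ne_zero) z hz
    rw [norm_one] at h1
    rw [e1, e2, Bas.Pm_zero, one_mul, norm_mul]
    exact mul_le_of_le_one_left (norm_nonneg _) h1
  -- the main case
  set l : ℝ := (p - 1) * η / 384 with hl
  have hl0 : 0 < l := by
    rw [hl]
    have : 0 < (p - 1) * η := mul_pos (by linarith) hη0
    positivity
  have hlη : 264 ≤ l * η := by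
    rw [hl]
    have : (p - 1) * η / 384 * η = (p - 1) * η ^ 2 / 384 := by ring
    rw [this]
    linarith
  have hpi := Real.pi_pos
  set D : ℂ → ℝ := fun z => ‖g z‖ ^ p - ‖f z‖ ^ p with hD
  have hDc : ContinuousOn D (ball 0 1) := by
    apply ContinuousOn.sub
    · exact hg.1.continuousOn.norm.rpow_const (fun _ _ => Or.inr hp0.le)
    · exact hf.1.continuousOn.norm.rpow_const (fun _ _ => Or.inr hp0.le)
  have hDi : IntegrableOn D (ball 0 1) := hg.2.sub hf.2
  set P : ℝ := ∫ z in closedBall (0 : ℂ) (1 - η), max (‖f z‖ ^ p - ‖g z‖ ^ p) 0 with hPdef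
  have hP0 : 0 ≤ P := by
    apply integral_nonneg
    intro z
    exact le_max_right _ _
  set E : ℝ := Real.exp (l * (η / 2)) with hEdef
  have hE0 : 0 < E := Real.exp_pos _
  have hE1 : 1 ≤ E := Real.one_le_exp (by positivity)
  have hEn : Real.exp (-(l * (η / 2))) = E⁻¹ := by rw [Real.exp_neg]
  -- the circles
  have hcirc : ∀ ρ ∈ Ioo (1 - η / 2) (1 - η / 3), l / (44 * Real.pi) * E * P ≤
      Real.circleAverage D 0 ρ := by
    intro ρ hρ
    have h1 := loss hC hE hI hp hη0 hη2 (by linarith) hρ.1.le hρ.2.le hP hn hf.1 hg.1 hg0 hfac hfg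
    rw [← hl, hEn] at h1
    have h2 := mul_le_mul_of_nonneg_left h1 (show 0 ≤ l / (44 * Real.pi) * E by positivity)
    refine h2.trans (le_of_eq ?_)
    rw [← hD]
    field_simp
  have h1 := Pool.Agent.KRB.pol D (1 - η / 2) (1 - η / 3) (l / (44 * Real.pi) * E * P)
    (by linarith) (by linarith) (by linarith) (by positivity) hDc hcirc
  have h2 : l / (44 * Real.pi) * E * P * (Real.pi * (1 - η / 3 - (1 - η / 2))) =
      l * η / 264 * E * P := by
    field_simp
    ring
  rw [h2] at h1
  have h3 : P ≤ l * η / 264 * E * P := by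
    have h4 : 1 ≤ l * η / 264 * E := by
      have h5 : 1 ≤ l * η / 264 := by linarith
      nlinarith
    calc P = 1 * P := (one_mul P).symm
      _ ≤ _ := mul_le_mul_of_nonneg_right h4 hP0
  -- the whole disc
  set A : Set ℂ := {z | 1 - η < ‖z‖ ∧ ‖z‖ < 1} with hA
  have hAm : MeasurableSet A :=
    (measurableSet_lt measurable_const measurable_norm).inter
      (measurableSet_lt measurable_norm measurable_const)
  have hAb : A ⊆ ball 0 1 := fun z hz => by rw [mem_ball_zero_iff]; exact hz.2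
  have hun : ball (0 : ℂ) 1 = closedBall 0 (1 - η) ∪ A := by
    ext z
    rw [mem_ball_zero_iff, mem_union, mem_closedBall_zero_iff, hA, mem_ofPred_eq]
    constructor
    · intro h
      by_cases h1 : ‖z‖ ≤ 1 - η
      · exact Or.inl h1
      · exact Or.inr ⟨not_le.1 h1, h⟩
    · rintro (h | h)
      · linarith
      · exact h.2
  have hdj : Disjoint (closedBall (0 : ℂ) (1 - η)) A := by
    rw [Set.disjoint_left]
    intro z h1 h2
    rw [mem_closedBall_zero_iff] at h1
    exact absurd h2.1 (not_lt.2 h1)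
  have hcb : closedBall (0 : ℂ) (1 - η) ⊆ ball 0 1 := by
    rw [hun]
    exact subset_union_left
  have hA0 : ∀ z ∈ A, 0 ≤ D z := by
    intro z hz
    have := Real.rpow_le_rpow (norm_nonneg (f z)) (hfg z hz.1 hz.2) hp0.le
    simp only [hD]
    linarith
  have h5 : ∫ z in {z : ℂ | 1 - η / 2 < ‖z‖ ∧ ‖z‖ < 1 - η / 3}, D z ≤ ∫ z in A, D z := by
    apply setIntegral_mono_set (hDi.mono_set hAb)
    · filter_upwards [ae_restrict_mem hAm] with z hz
      exact hA0 z hz
    · refine LE.le.eventuallyLE ?_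
      intro z hz
      exact ⟨by linarith [hz.1], by linarith [hz.2]⟩
  have h6 : -P ≤ ∫ z in closedBall (0 : ℂ) (1 - η), D z := by
    rw [hPdef, ← integral_neg]
    apply setIntegral_mono_on
    · have hI1 : ContinuousOn (fun z => -max (‖f z‖ ^ p - ‖g z‖ ^ p) 0)
          (closedBall (0 : ℂ) (1 - η)) := by
        apply ContinuousOn.neg
        have h3 := (hDc.mono hcb).neg
        refine (cont_max.comp_continuousOn h3).congr ?_
        intro z _
        simp only [hD, Pi.neg_apply, neg_sub, Function.comp_apply]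
      exact hI1.integrableOn_compact (isCompact_closedBall _ _)
    · exact hDi.mono_set hcb
    · exact measurableSet_closedBall
    · intro z _
      have := le_max_left (‖f z‖ ^ p - ‖g z‖ ^ p) 0
      simp only [hD]
      linarith
  have h7 : 0 ≤ ∫ z in ball (0 : ℂ) 1, D z := by
    rw [hun, setIntegral_union hdj hAm (hDi.mono_set hcb) (hDi.mono_set hAb)]
    linarith
  apply Pool.Agent.KRB.LOW0Aux.nrm_le hp0
  have h8 : ∫ z in ball (0 : ℂ) 1, D z =
      (∫ z in ball (0 : ℂ) 1, ‖g z‖ ^ p) - ∫ z in ball (0 : ℂ) 1, ‖f z‖ ^ p :=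
    integral_sub hg.2 hf.2
  rw [h8] at h7
  linarith

end Pool.Agent.KRE
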