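import Pool.Agent.KRE.Bas

/-!
# The exact order of `1 - κ_p`: the multiplier
-/

set_option autoImplicit false

namespace Pool.Agent.KRE

open Complex MeasureTheory Set Filter Topology Metric
open Pool.Agent.KRC (An)

namespace MQAux

theorem norm_pt {r : ℝ} (hr : 0 ≤ r) (t : ℝ) : ‖(r : ℂ) * cexp (t * I)‖ = r := by
  rw [norm_mul, Complex.norm_exp_ofReal_mul_I, mul_one, norm_real, Real.norm_of_nonneg hr]

end MQAux

open MQAux in
theorem mq (hC : S_CHI) (hK : S_CST) (hH : S_HNK) : S_MQ := by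
  intro η ρ s F z₀ hη hη2 hρ1 hρ2 hP hz₀
  have hρb0 : 0 ≤ ρ - η / 8 := by linarith
  have hρ0 : 0 < ρ := by linarith
  obtain ⟨t₁, ht₁⟩ : ∃ t₁ : ℝ, z₀ = (‖z₀‖ : ℂ) * cexp (t₁ * I) :=
    ⟨arg z₀, (Complex.norm_mul_exp_arg_mul_I z₀).symm⟩
  obtain ⟨w₁, hw₁⟩ : ∃ w₁ : ℂ, w₁ = (ρ - η / 8 : ℝ) * cexp (t₁ * I) := ⟨_, rfl⟩
  have hw₁n : ‖w₁‖ = ρ - η / 8 := by rw [hw₁]; exact norm_pt hρb0 t₁
  have hw₁A : w₁ ∈ An (1 - η) := ⟨by rw [hw₁n]; linarith, by rw [hw₁n]; linarith⟩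
  have hb : ‖F w₁ / Pm s w₁‖ < 1 := by
    have h1 := hP.lt w₁ hw₁A
    have h2 : 0 < ‖Pm s w₁‖ := lt_of_le_of_lt (norm_nonneg _) h1
    rw [norm_div, div_lt_one h2]
    exact h1
  obtain ⟨h1, h2, -, -, v, hv, h5⟩ := hC η ρ s F (F w₁ / Pm s w₁) hη hη2 hρ1 hρ2 hP hb
  have hsph : ∀ w : ℂ, ‖w‖ = ρ → w ∈ An (1 - η) := by
    intro w hw
    exact ⟨by rw [hw]; linarith, by rw [hw]; linarith⟩
  have hφ : ContinuousOn (fun w : ℂ => -Real.log (1 - ‖Ch s F (F w₁ / Pm s w₁) w‖) - 1 / 2)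
      (sphere 0 ρ) := by
    have hsub : sphere (0 : ℂ) ρ ⊆ An (1 - η) := fun w hw =>
      hsph w (mem_sphere_zero_iff_norm.1 hw)
    have hc : ContinuousOn (Ch s F (F w₁ / Pm s w₁)) (sphere 0 ρ) := h1.continuousOn.mono hsub
    have hc2 : ContinuousOn (fun w : ℂ => 1 - ‖Ch s F (F w₁ / Pm s w₁) w‖) (sphere 0 ρ) :=
      continuousOn_const.sub hc.norm
    refine ((hc2.log fun w hw => ?_).neg).sub continuousOn_const
    have := (h2 w (hsub hw)).2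
    linarith
  obtain ⟨H, hHd, hHa⟩ := Bas.approx hρ0 hφ (show (0 : ℝ) < 1 / 2 by norm_num)
  have hup : ∀ w : ℂ, ‖w‖ = ρ → (H w).re ≤ -Real.log (1 - ‖Ch s F (F w₁ / Pm s w₁) w‖) := by
    intro w hw
    have := (abs_le.1 (hHa w hw)).2
    linarith
  have hlo : ∀ w : ℂ, ‖w‖ = ρ →
      -Real.log (1 - ‖Ch s F (F w₁ / Pm s w₁) w‖) - 1 ≤ (H w).re := by
    intro w hw
    have := (abs_le.1 (hHa w hw)).1
    linarith
  have hcost := hK η ρ t₁ s F H w₁ hη hη2 hρ1 hρ2 hP hHd hw₁ hup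
  -- Harnack
  have hhar := hH (fun z => H z + 1) ρ (ρ - η / 8) ‖z₀‖ t₁ (norm_nonneg _) (by linarith)
    (by linarith) (hHd.add_const 1) (by
      intro w hw
      have h6 := hlo w hw
      have h7 := (h2 w (hsph w hw)).2
      have h8 : Real.log (1 - ‖Ch s F (F w₁ / Pm s w₁) w‖) ≤ 0 :=
        Real.log_nonpos (by linarith) (by linarith [norm_nonneg (Ch s F (F w₁ / Pm s w₁) w)])
      rw [add_re, one_re]
      linarith)
  rw [← hw₁, ← ht₁, add_re, add_re, one_re] at hhar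
  have hz : (H z₀).re ≤ 832 * (1 + (Multiset.card s : ℝ)) * (ρ - ‖z₀‖) / η := by
    have hn : (0 : ℝ) ≤ (Multiset.card s : ℝ) := Nat.cast_nonneg _
    have hr : 0 ≤ ρ - ‖z₀‖ := by linarith
    have e1 : (ρ - ‖z₀‖) / (ρ - (ρ - η / 8)) = 8 * (ρ - ‖z₀‖) / η := by
      rw [sub_sub_cancel]
      field_simp
    have e2 : 0 ≤ 8 * (8 * (ρ - ‖z₀‖) / η) := by positivity
    have e3 : (H w₁).re + 1 ≤ 13 * (1 + (Multiset.card s : ℝ)) := by linarith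
    have e4 := mul_le_mul_of_nonneg_left e3 e2
    rw [e1] at hhar
    have e5 : 8 * (8 * (ρ - ‖z₀‖) / η) * (13 * (1 + (Multiset.card s : ℝ))) =
        832 * (1 + (Multiset.card s : ℝ)) * (ρ - ‖z₀‖) / η := by ring
    linarith
  refine ⟨v, fun z => cexp (-H z), hv, hHd.neg.cexp, ?_, ?_⟩
  · intro w hw
    have h6 := h5 w (hsph w hw)
    have h7 := (h2 w (hsph w hw)).2
    have h8 : 0 < 1 - ‖Ch s F (F w₁ / Pm s w₁) w‖ := by linarith
    have h9 : ‖cexp (-H w)‖ ≤ Real.exp 1 * (1 - ‖Ch s F (F w₁ / Pm s w₁) w‖) := by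
      rw [Complex.norm_exp, neg_re]
      calc Real.exp (-(H w).re)
          ≤ Real.exp (1 + Real.log (1 - ‖Ch s F (F w₁ / Pm s w₁) w‖)) := by
            apply Real.exp_le_exp.2
            have := hlo w hw
            linarith
        _ = _ := by rw [Real.exp_add, Real.exp_log h8]
    have h10 : 0 ≤ ‖Pm s w‖ - ‖F w‖ := by
      have := hP.lt w (hsph w hw)
      linarith
    calc ‖F w - v * Pm s w‖ * ‖cexp (-H w)‖
        ≤ ‖F w - v * Pm s w‖ * (Real.exp 1 * (1 - ‖Ch s F (F w₁ / Pm s w₁) w‖)) :=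
          mul_le_mul_of_nonneg_left h9 (norm_nonneg _)
      _ = Real.exp 1 * (‖F w - v * Pm s w‖ * (1 - ‖Ch s F (F w₁ / Pm s w₁) w‖)) := by ring
      _ ≤ Real.exp 1 * (8 * (‖Pm s w‖ - ‖F w‖)) :=
          mul_le_mul_of_nonneg_left h6 (Real.exp_pos 1).le
      _ ≤ 22 * (‖Pm s w‖ - ‖F w‖) := by
          have h11 := Real.exp_one_lt_d9
          nlinarith
  · change _ ≤ ‖cexp (-H z₀)‖
    rw [Complex.norm_exp, neg_re]
    apply Real.exp_le_exp.2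
    linarith

end Pool.Agent.KRE
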