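import Pool.Agent.KRE.Bas
import Pool.Agent.KRB.Maxp

/-!
# Maximum principle with a harmonic majorant (module KRE_PT2)
-/

set_option autoImplicit false

namespace Pool.Agent.KRE

open Complex MeasureTheory Set Filter Topology Metric
open Pool.Agent.KRC (An)

namespace PT2Aux

/-- `maxp` in the form which is used here: `‖g‖ ^ q * ‖h‖ ≤ ‖exp H‖ * M` passes from the sphere to the ball -/
theorem maxp_exp {g h H : ℂ → ℂ} {r q M : ℝ} (hr : 0 < r) (hq : 0 ≤ q)
    (hg : ContinuousOn g (closedBall 0 r)) (hh : ContinuousOn h (closedBall 0 r))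
    (hg' : DifferentiableOn ℂ g (ball 0 r)) (hh' : DifferentiableOn ℂ h (ball 0 r))
    (hH : Differentiable ℂ H)
    (hM : ∀ z : ℂ, ‖z‖ = r → ‖g z‖ ^ q * ‖h z‖ ≤ M * Real.exp (H z).re) {z : ℂ} (hz : ‖z‖ ≤ r) :
    ‖g z‖ ^ q * ‖h z‖ ≤ M * Real.exp (H z).re := by
  have h1 := Pool.Agent.KRB.maxp g (fun w => h w * cexp (-H w)) r q M hr hq hg
    (hh.mul hH.neg.cexp.continuous.continuousOn) hg'
    (hh'.mul hH.neg.cexp.differentiableOn) (by
      intro w hw
      have h2 := hM w (mem_sphere_zero_iff_norm.1 hw)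
      rw [norm_mul, Complex.norm_exp, Complex.neg_re, ← mul_assoc, Real.exp_neg]
      rw [← div_eq_mul_inv, div_le_iff₀ (Real.exp_pos _)]
      exact h2) z (mem_closedBall_zero_iff.2 hz)
  rw [norm_mul, Complex.norm_exp, Complex.neg_re, ← mul_assoc, Real.exp_neg,
    ← div_eq_mul_inv, div_le_iff₀ (Real.exp_pos _)] at h1
  exact h1

/-- the maximum principle for the real part -/
theorem re_nonpos {f : ℂ → ℂ} {ρ : ℝ} (hρ : 0 < ρ) (hf : Differentiable ℂ f)
    (h : ∀ w : ℂ, ‖w‖ = ρ → (f w).re ≤ 0) {z : ℂ} (hz : ‖z‖ ≤ ρ) : (f z).re ≤ 0 := by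
  have h1 := maxp_exp (g := fun _ => 1) (h := fun w => cexp (f w)) (H := fun _ => 0) (q := 0)
    (M := 1) hρ le_rfl continuousOn_const hf.cexp.continuous.continuousOn
    (differentiableOn_const _) hf.cexp.differentiableOn (differentiable_const _) (by
      intro w hw
      simp only [norm_one, Real.one_rpow, one_mul, Complex.norm_exp, Complex.zero_re, Real.exp_zero]
      exact Real.exp_le_one_iff.2 (h w hw)) hz
  simp only [norm_one, Real.one_rpow, one_mul, Complex.norm_exp, Complex.zero_re,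
    Real.exp_zero] at h1
  exact Real.exp_le_one_iff.1 h1

end PT2Aux

open PT2Aux in
theorem pt2 : S_PT2 := by
  intro G₁ G₂ h H₄ r ρ σ hr hrρ hσ hG₁c hG₁d hG₂c hG₂d hhc hhd hle hH₄ hb z hz
  have hρ : 0 < ρ := hr.trans hrρ
  have hsub : closedBall (0 : ℂ) r ⊆ closedBall 0 ρ := closedBall_subset_closedBall hrρ.le
  have hsub' : ball (0 : ℂ) r ⊆ ball 0 ρ := ball_subset_ball hrρ.le
  obtain ⟨Ψ, hΨ⟩ : ∃ Ψ : ℂ → ℝ, Ψ = fun w => ‖G₂ w‖ ^ σ * ‖h w‖ := ⟨_, rfl⟩
  have hΨ0 : ∀ w, 0 ≤ Ψ w := fun w => by rw [hΨ]; positivity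
  have hΨc : ContinuousOn Ψ (sphere 0 ρ) := by
    rw [hΨ]
    exact ((hG₂c.mono sphere_subset_closedBall).norm.rpow_const fun w _ => Or.inr hσ).mul
      (hhc.mono sphere_subset_closedBall).norm
  have key : ∀ ε : ℝ, 0 < ε →
      ‖G₁ z‖ ^ σ * ‖h z‖ ≤ Real.exp ε * (Real.exp ε * ((H₄ z).re + ε)) := by
    intro ε hε
    have hpos : ∀ w, 0 < Ψ w + ε := fun w => by
      have := hΨ0 w
      positivity
    obtain ⟨H₃, hH₃, hH₃a⟩ := Bas.approx hρ (φ := fun w => Real.log (Ψ w + ε))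
      (ContinuousOn.log (hΨc.add continuousOn_const) fun w _ => (hpos w).ne') hε
    -- the ball of radius `ρ`
    have h1 : ∀ w : ℂ, ‖w‖ ≤ ρ → ‖G₂ w‖ ^ σ * ‖h w‖ ≤ Real.exp ε * Real.exp (H₃ w).re := by
      intro w hw
      refine maxp_exp hρ hσ hG₂c hhc hG₂d hhd hH₃ ?_ hw
      intro w hw
      have h2 := abs_le.1 (hH₃a w hw)
      rw [← Real.exp_add]
      have h3 : Real.log (Ψ w + ε) ≤ ε + (H₃ w).re := by linarith [h2.1]
      have h4 : Ψ w + ε ≤ Real.exp (ε + (H₃ w).re) := (Real.log_le_iff_le_exp (hpos w)).1 h3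
      have h5 : ‖G₂ w‖ ^ σ * ‖h w‖ = Ψ w := by rw [hΨ]
      rw [h5]
      linarith
    -- the ball of radius `r`
    have h2 : ‖G₁ z‖ ^ σ * ‖h z‖ ≤ Real.exp ε * Real.exp (H₃ z).re := by
      refine maxp_exp hr hσ hG₁c (hhc.mono hsub) hG₁d (hhd.mono hsub') hH₃ ?_ hz
      intro w hw
      refine le_trans ?_ (h1 w (by rw [hw]; exact hrρ.le))
      refine mul_le_mul_of_nonneg_right ?_ (norm_nonneg _)
      exact Real.rpow_le_rpow (norm_nonneg _) (hle w hw) hσ
    refine h2.trans (mul_le_mul_of_nonneg_left ?_ (Real.exp_pos _).le)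
    -- the majorant
    have h3 : ∀ w : ℂ, ‖w‖ = ρ → Real.exp (H₃ w).re ≤ Real.exp ε * ((H₄ w).re + ε) := by
      intro w hw
      have h4 := abs_le.1 (hH₃a w hw)
      have h5 : (H₃ w).re ≤ ε + Real.log (Ψ w + ε) := by linarith [h4.2]
      refine (Real.exp_le_exp.2 h5).trans ?_
      rw [Real.exp_add, Real.exp_log (hpos w)]
      refine mul_le_mul_of_nonneg_left ?_ (Real.exp_pos _).le
      have h6 := hb w hw
      have h7 : ‖G₂ w‖ ^ σ * ‖h w‖ = Ψ w := by rw [hΨ]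
      rw [h7] at h6
      linarith
    obtain ⟨v, hv1, hv2⟩ : ∃ v : ℂ, ‖v‖ = 1 ∧ v * cexp (H₃ z) = (Real.exp (H₃ z).re : ℝ) := by
      refine ⟨cexp (-((H₃ z).im * I)), ?_, ?_⟩
      · rw [Complex.norm_exp]
        simp
      · rw [← Complex.exp_add, Complex.ofReal_exp]
        congr 1
        apply Complex.ext
        · simp
        · simp
    have h4 := re_nonpos (f := fun w => v * cexp (H₃ w) - (Real.exp ε : ℝ) * (H₄ w + (ε : ℝ))) hρ
      ((hH₃.cexp.const_mul v).sub ((hH₄.add_const _).const_mul _)) (by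
        intro w hw
        rw [Complex.sub_re, Complex.re_ofReal_mul, Complex.add_re, Complex.ofReal_re]
        have h5 := Complex.re_le_norm (v * cexp (H₃ w))
        rw [norm_mul, hv1, one_mul, Complex.norm_exp] at h5
        have h6 := h3 w hw
        linarith) (z := z) (hz.trans hrρ.le)
    rw [Complex.sub_re, Complex.re_ofReal_mul, Complex.add_re, Complex.ofReal_re, hv2,
      Complex.ofReal_re] at h4
    linarith
  have hlim : Tendsto (fun ε : ℝ => Real.exp ε * (Real.exp ε * ((H₄ z).re + ε))) (𝓝[>] 0)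
      (𝓝 ((H₄ z).re)) := by
    have hc : Continuous fun ε : ℝ => Real.exp ε * (Real.exp ε * ((H₄ z).re + ε)) := by fun_prop
    have h1 := hc.tendsto 0
    simp only [Real.exp_zero, add_zero, one_mul] at h1
    exact h1.mono_left nhdsWithin_le_nhds
  refine ge_of_tendsto hlim ?_
  filter_upwards [self_mem_nhdsWithin] with ε hε
  exact key ε hε

end Pool.Agent.KRE
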