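import Pool.Agent.KRE.Defs

/-!
# The exact order of `1 - κ_p`: statements of the modules

THEOREM. `1/(40√p) ≤ 1 - κ_p ≤ 2300/√p` for all `p ≥ 1` (so `κ_p < κ_q` if `p ≥ 1`, `q ≥ 10^10 p`). The lower bound is
`Pool.Agent.KRB.up`. The upper bound (`S_LW`): let `q = p - 1`, `η = 1 - c ≤ 1/2`, `p η²` large, `|f| ≤ |g|` for `c < |z| < 1`.
Write `g = P g₀`, `f = F g₀`, `P = Pm s` with all roots in `|z| ≤ c` and `|F| < |P|` on the annulus (`S_FCT`; if `|F| = |P|`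
somewhere then `f = u g`), `n = card s`; for `n = 0` we have `|f| ≤ |g|` in the disc. For `1 - η/2 < ρ < 1 - η/3` and `|z₀| ≤ c` there are a
unimodular `u` and an entire `Q` with `|F - u P| |Q| ≤ 22 (|P| - |F|)` on `|z| = ρ` and
`|Q z₀| ≥ exp (-832 (1 + n) (ρ - |z₀|)/η)` (`S_MQ`; this is the main point: the cost is proportional to the number `n` of zeros, and
each zero gives a gain `exp (q η (ρ - |z₀|)/192)` by `S_GNP`). Then `S_CO2` bounds `|f|^q (|f| - |g|)` at `z₀` by a harmonic function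
with boundary values `22 |f g|^{q/2} (|g| - |f|) ≤ (22/p) (|g|^p - |f|^p)` (`S_EL`), and one integrates over `|z₀| ≤ c` (`S_INT`) and over
`ρ` (`Pool.Agent.KRB.pol`).

Notation in the doc-strings: `w₁ = (ρ - η/8) e^{it₁}`, `ρb = ρ - η/8`, `ω = F/P`, `b = ω w₁`, `χ = Ch s F b`, `K = F - b P`, `G = P - conj b F`,
so `χ = K/G`. Basic lemmas (proved): `Pool/Agent/KRE/Bas.lean`.
-/

set_option autoImplicit false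

namespace Pool.Agent.KRE

open Complex MeasureTheory Set Filter Topology Metric
open Pool.Agent.KRC (An)
open Pool.Agent.KRB (Berg nrm KP kap)

/-- **Factorisation.** `Pool.Agent.KRC.FACAux.facg` (file `Pool/Agent/KRC/Fac.lean`) gives `g = P' g'` with `P' ≠ 0` a polynomial with all roots in
`‖z‖ ≤ c` and `g' ≠ 0` for `‖z‖ ≤ c`. `s = P'.roots`, `P' = lead * Pm s` (`IsAlgClosed.splits`), `g₀ = lead * g'`. `Pool.Agent.KRB.rem`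
(file `Pool/Agent/KRB/Rem.lean`) gives `ω` analytic on the annulus with `f = ω g`, `‖ω‖ ≤ 1`. `F z = f z / g₀ z` for `‖z‖ ≤ c` and `ω z * Pm s z`
for `‖z‖ > c`: this is analytic in the disc and `f = F g₀` (same argument as for `v` in the proof of `Pool.Agent.KRC.fac`). If
`‖ω z₁‖ = 1` for some `z₁` in the annulus, then `ω` is constant `= u` near `z₁` (`Complex.eventually_eq_of_isLocalMax_norm`), `f = u g` near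
`z₁`, hence in the disc (identity theorem): first alternative. Otherwise `‖F‖ = ‖ω‖ ‖Pm s‖ < ‖Pm s‖` on `An c`. -/
def S_FCT : Prop := ∀ (f g : ℂ → ℂ) (c : ℝ), 0 < c → c < 1 → DifferentiableOn ℂ f (ball 0 1) →
  DifferentiableOn ℂ g (ball 0 1) → (∃ z ∈ ball (0 : ℂ) 1, g z ≠ 0) →
  (∀ z ∈ An c, ‖f z‖ ≤ ‖g z‖) →
  (∃ u : ℂ, ‖u‖ = 1 ∧ ∀ z ∈ ball (0 : ℂ) 1, f z = u * g z) ∨
  ∃ (s : Multiset ℂ) (F g₀ : ℂ → ℂ), Pair c s F ∧ DifferentiableOn ℂ g₀ (ball 0 1) ∧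
    ∀ z ∈ ball (0 : ℂ) 1, g z = Pm s z * g₀ z ∧ f z = F z * g₀ z

/-- **The number of zeros of `G = Pm s - conj b F`.** On `An c`: `‖conj b F‖ < ‖Pm s‖`, so `G ≠ 0` and `Re (G / Pm s) > 0`.
`Pool.Agent.KRC.FACAux.facg` for `G` (`κ = c`) gives `G = P' g₁` with the roots of `P'` in `‖z‖ ≤ c`, `g₁ ≠ 0` for `‖z‖ ≤ c`, and `g₁ ≠ 0` on `An c`
since `G ≠ 0` there. `s' = P'.roots`, `G₁ = lead * g₁`. The number of roots: let `c < r < 1`. On `An c` the function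
`L = log (G / Pm s)` (principal branch, `Re > 0`) is analytic with `L' = G'/G - Pm s'/Pm s`, and `G'/G = (Pm s')'/Pm s' + G₁'/G₁`. Integrate over the
circle `‖z‖ = r`: `∮ L' = 0` (`circleIntegral.integral_eq_zero_of_hasDerivWithinAt'`), `∮ G₁'/G₁ = 0` (Cauchy, `G₁'/G₁` is analytic in the
disc), and `∮ (Pm s)'/Pm s = 2πi card s` (sum of the `1/(z - a)`, `circleIntegral.integral_sub_inv_of_mem_ball`; induction on the multiset,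
`logDeriv` of a product). -/
def S_GZ : Prop := ∀ (c : ℝ) (s : Multiset ℂ) (F : ℂ → ℂ) (b : ℂ), 0 < c → c < 1 → Pair c s F →
  ‖b‖ < 1 → ∃ (s' : Multiset ℂ) (G₁ : ℂ → ℂ), (∀ a ∈ s', ‖a‖ ≤ c) ∧
    Multiset.card s' = Multiset.card s ∧ DifferentiableOn ℂ G₁ (ball 0 1) ∧
    (∀ z ∈ ball (0 : ℂ) 1, G₁ z ≠ 0) ∧
    ∀ z ∈ ball (0 : ℂ) 1, Pm s z - (starRingEnd ℂ) b * F z = Pm s' z * G₁ z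

/-- **Harnack along a radius.** Poisson formula for `H` (`DiffContOnCl.circleAverage_poissonKernel_smul` in
`Mathlib/Analysis/Complex/Poisson.lean`), real parts; `P(z,w) = (ρ² - |z|²)/|w - z|²`. For `z₀ = r e^{it}`, `w₁ = ρb e^{it}`, `|w| = ρ`:
`|z₀ - w₁| = ρb - r ≤ |w - z₀|`, so `|w - w₁| ≤ 2 |w - z₀|`; `ρ² - r² ≤ 2ρ (ρ - r)`, `ρ² - ρb² ≥ ρ (ρ - ρb)`. Hence
`P(z₀,w) ≤ 8 (ρ - r)/(ρ - ρb) · P(w₁,w)`. -/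
def S_HNK : Prop := ∀ (H : ℂ → ℂ) (ρ ρb r t : ℝ), 0 ≤ r → r ≤ ρb → ρb < ρ → Differentiable ℂ H →
  (∀ w : ℂ, ‖w‖ = ρ → 0 ≤ (H w).re) →
  (H (r * cexp (t * I))).re ≤ 8 * ((ρ - r) / (ρ - ρb)) * (H (ρb * cexp (t * I))).re

/-- **The function `χ`.** On `An (1 - η)`, with `ω = F / Pm s`, `‖ω‖ < 1`: `χ = (ω - b)/(1 - conj b ω)` and
`‖1 - conj b ω‖² (1 - ‖χ‖²) = (1 - ‖b‖²)(1 - ‖ω‖²)` (see `Pool.Agent.KRB.PHAux.key_ineq`), so `‖χ‖ < 1`.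
Circles: for `ρ - η/8 ≤ r ≤ ρ` the balls of radius `η/4` around the points of `‖z‖ = r` are in `An (1 - η)`, so
`‖χ'‖ ≤ (8/η) (1 - ‖χ‖)` (`Pool.Agent.KRB.PHAux.pick`), and `Pool.Agent.KRB.PHAux.gron2` applies to `V t = χ (r e^{it})`, `A = 8/η`
(compare the proof of `Pool.Agent.KRB.ph`).
Radius: `Pool.Agent.KRC.pck : S_PCK` on the ball of radius `3η/8` around `ρb e^{it}`.
Last part: `v = b/‖b‖` (or `1` if `b = 0`); `‖ω - v‖ ≤ ‖1 - conj b ω‖ + (1 - ‖b‖) ≤ 2 ‖1 - conj b ω‖` and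
`1 - ‖ω‖ ≥ (1 - ‖ω‖²)/2 = (1 - ‖χ‖²) ‖1 - conj b ω‖²/(2 (1 - ‖b‖²)) ≥ (1 - ‖χ‖) ‖1 - conj b ω‖/4` (as `‖1 - conj b ω‖ ≥ 1 - ‖b‖`). -/
def S_CHI : Prop := ∀ (η ρ : ℝ) (s : Multiset ℂ) (F : ℂ → ℂ) (b : ℂ), 0 < η → η ≤ 1 / 2 →
  1 - η / 2 ≤ ρ → ρ ≤ 1 - η / 3 → Pair (1 - η) s F → ‖b‖ < 1 →
  DifferentiableOn ℂ (Ch s F b) (An (1 - η)) ∧
  (∀ z ∈ An (1 - η), Pm s z - (starRingEnd ℂ) b * F z ≠ 0 ∧ ‖Ch s F b z‖ < 1) ∧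
  (∀ r t t' : ℝ, ρ - η / 8 ≤ r → r ≤ ρ →
    ‖Ch s F b (r * cexp (t' * I)) - Ch s F b (r * cexp (t * I))‖ ≤
      (1 - ‖Ch s F b (r * cexp (t * I))‖) * (Real.exp (8 * |t' - t| / η) - 1)) ∧
  (∀ t : ℝ, 1 - ‖Ch s F b ((ρ - η / 8 : ℝ) * cexp (t * I))‖ ≤
    3 * (1 - ‖Ch s F b (ρ * cexp (t * I))‖)) ∧
  ∃ v : ℂ, ‖v‖ = 1 ∧ ∀ z ∈ An (1 - η),
    ‖F z - v * Pm s z‖ * (1 - ‖Ch s F b z‖) ≤ 8 * (‖Pm s z‖ - ‖F z‖)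

/-- **The cost** (uses `S_GZ`, `S_CHI`). `χ w₁ = 0` (`b = ω w₁`; `Pm s w₁ ≠ 0`). Let `m τ = ‖χ (w₁ e^{iτ})‖`, continuous, `m 0 = 0`.
Case A: `m τ < 1/2` for all `|τ| ≤ π`. Then `1 - ‖χ‖ ≥ 1/6` on `‖w‖ = ρ` (fourth part of `S_CHI`), `Re H ≤ log 6` there, so
`Re H w₁ ≤ log 6 ≤ 2` (maximum principle for `‖exp H‖`).
Case B: let `τ₀ ∈ [-π, π]` with `m τ₀ ≥ 1/2` and `θ = |τ₀|` minimal; then `m τ₀ = 1/2`, `θ > 0`, and `m ≤ 1/2` on `[-θ, θ]`. On `‖w‖ = ρ`,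
`w = ρ e^{it}`, `|t - t₁| ≤ π`, let `Y w = χ (w e^{iτ₀}) - χ w`. Near: if `|t - t₁| ≤ θ` then `1 - ‖χ w‖ ≥ 1/6`, so `‖Y w‖ ≤ 2 ≤ 12 (1 - ‖χ w‖)`. Far:
`‖Y w‖ ≤ (1 - ‖χ w‖) e^{8θ/η}` (third part, `r = ρ`). Let `H₂ z = (32 θ/η) ζ/(ζ + ε)` with `ζ = 1 - z e^{-it₁}/ρ`, `ε = 2θ/π`. For `‖z‖ ≤ ρ` we
have `Re ζ ≥ 0`, and then `Re (ζ/(ζ+ε)) ≥ 0`, and it is `≥ 1/4` if `‖ζ‖ ≥ ε` (`Re (ζ conj (ζ+ε)) ≥ ‖ζ‖²`, `‖ζ+ε‖ ≤ ‖ζ‖ + ε ≤ 2 ‖ζ‖`;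
compare `Pool/Agent/KRB/Mul.lean`). On `‖w‖ = ρ`, `‖ζ‖ = 2 |sin ((t - t₁)/2)| ≥ (2/π) |t - t₁|`, so `Re H₂ ≥ 8θ/η` for `|t - t₁| ≥ θ`. At `w₁`:
`ζ = η/(8ρ) ≤ η/6` is real, `Re H₂ w₁ ≤ (32 θ/η) (η/6)/ε = 8π/3`.
Let `G = Pm s' · G₁` from `S_GZ`, `Gs = Pr s' ρ · G₁`: analytic in the disc, without zeros for `‖z‖ ≤ ρ`, `‖Gs‖ = ‖G‖` on `‖w‖ = ρ`
(`Bas.norm_Pr`), `‖Gs w‖ ≤ (5/3)^n ‖G w‖` on `‖w‖ = ρb` (`Bas.Pr_le`). With `K = F - b Pm s`, the function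
`Φ z = (K (z e^{iτ₀}) G z - K z G (z e^{iτ₀})) e^{H z - H₂ z}/(Gs z Gs (z e^{iτ₀}))` is analytic in the open disc of radius `ρ`, continuous on the
closed one, and `‖Φ w‖ = ‖Y w‖ e^{Re H - Re H₂} ≤ 12` on `‖w‖ = ρ` (`e^{Re H} ≤ 1/(1 - ‖χ‖)`). So `‖Φ w₁‖ ≤ 12`, and
`‖Φ w₁‖ ≥ (1/2) (5/3)^{-2n} e^{Re H w₁ - 8π/3}`. Hence `Re H w₁ ≤ log 24 + 8π/3 + 2 n log (5/3) ≤ 12 (1 + n)`. -/
def S_CST : Prop := ∀ (η ρ t₁ : ℝ) (s : Multiset ℂ) (F H : ℂ → ℂ) (w₁ : ℂ), 0 < η → η ≤ 1 / 2 →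
  1 - η / 2 ≤ ρ → ρ ≤ 1 - η / 3 → Pair (1 - η) s F → Differentiable ℂ H →
  w₁ = (ρ - η / 8 : ℝ) * cexp (t₁ * I) →
  (∀ w : ℂ, ‖w‖ = ρ → (H w).re ≤ -Real.log (1 - ‖Ch s F (F w₁ / Pm s w₁) w‖)) →
  (H w₁).re ≤ 12 * (1 + (Multiset.card s : ℝ))

/-- **The multiplier** (uses `S_CHI`, `S_CST`, `S_HNK`). Let `t₁ = arg z₀`, `w₁ = ρb e^{it₁}`, `b = F w₁ / Pm s w₁` (`‖b‖ < 1`), `χ = Ch s F b`, and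
`u = v` from the last part of `S_CHI`. `Bas.approx` gives an entire `H` with `|Re H - (-log (1 - ‖χ‖) - 1/2)| ≤ 1/2` on `‖w‖ = ρ`. `S_CST`:
`Re H w₁ ≤ 12 (1 + n)`. `Re (H + 1) ≥ -log (1 - ‖χ‖) ≥ 0` on `‖w‖ = ρ`, so `S_HNK` for `H + 1` (`r = ‖z₀‖`, `z₀ = ‖z₀‖ e^{it₁}`, `ρ - ρb = η/8`) gives
`Re H z₀ ≤ 64 (ρ - ‖z₀‖)/η · 13 (1 + n)`. `Q = exp (-H)`: on `‖w‖ = ρ`, `‖Q‖ ≤ e (1 - ‖χ‖)` and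
`‖F - u Pm s‖ ‖Q‖ ≤ 8 e (‖Pm s‖ - ‖F‖) ≤ 22 (‖Pm s‖ - ‖F‖)`. -/
def S_MQ : Prop := ∀ (η ρ : ℝ) (s : Multiset ℂ) (F : ℂ → ℂ) (z₀ : ℂ), 0 < η → η ≤ 1 / 2 →
  1 - η / 2 ≤ ρ → ρ ≤ 1 - η / 3 → Pair (1 - η) s F → ‖z₀‖ ≤ 1 - η →
  ∃ (u : ℂ) (Q : ℂ → ℂ), ‖u‖ = 1 ∧ Differentiable ℂ Q ∧
    (∀ w : ℂ, ‖w‖ = ρ → ‖F w - u * Pm s w‖ * ‖Q w‖ ≤ 22 * (‖Pm s w‖ - ‖F w‖)) ∧
    Real.exp (-(832 * (1 + (Multiset.card s : ℝ)) * (ρ - ‖z₀‖) / η)) ≤ ‖Q z₀‖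

/-- **The gain** from all zeros: the product of the functions `E` of `Pool.Agent.KRB.gain : S_GAIN` (file `Pool/Agent/KRB/Gain.lean`) over
`a ∈ s`, by `Multiset.induction_on`; `Pm (a ::ₘ s) z = (z - a) * Pm s z`, `Pr (a ::ₘ s) ρ z = (ρ² - conj a z)/ρ * Pr s ρ z`. -/
def S_GNP : Prop := ∀ (s : Multiset ℂ) (c₁ ρ : ℝ), (∀ a ∈ s, ‖a‖ ≤ c₁) → c₁ < ρ → 1 / 2 ≤ ρ →
  ρ ≤ 1 → ∃ E : ℂ → ℂ, DifferentiableOn ℂ E (ball 0 ρ) ∧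
    (∀ z : ℂ, ‖z‖ = c₁ → ‖E z‖ * ‖Pm s z‖ ≤ ‖Pr s ρ z‖) ∧
    ∀ z : ℂ, ‖z‖ ≤ c₁ →
      Real.exp ((Multiset.card s : ℝ) * ((ρ - c₁) * (ρ - ‖z‖) / 16)) ≤ ‖E z‖

/-- **Maximum principle with a harmonic majorant** (uses `Pool.Agent.KRB.maxp : S_MAXP`, file `Pool/Agent/KRB/Maxp.lean`). Let
`Ψ = ‖G₂‖^σ ‖h‖`, `ε > 0`. `Bas.approx` gives an entire `H₃` with `|Re H₃ - log (Ψ + ε)| ≤ ε` on `‖w‖ = ρ`. `S_MAXP` for `G₂`, `h e^{-H₃}`, `r = ρ`,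
`M = e^ε`: `‖G₂‖^σ ‖h‖ ≤ e^ε ‖e^{H₃}‖` for `‖z‖ ≤ ρ`. For `‖z‖ = r` therefore `‖G₁‖^σ ‖h e^{-H₃}‖ ≤ e^ε`, and `S_MAXP` on the ball of radius `r` gives
`‖G₁ z‖^σ ‖h z‖ ≤ e^ε ‖e^{H₃ z}‖` for `‖z‖ ≤ r`. On `‖w‖ = ρ`: `‖e^{H₃}‖ ≤ e^ε (Ψ + ε) ≤ e^ε (Re H₄ + ε)`, hence the same inside: for a
unimodular `v`, `Re (v e^{H₃} - e^ε (H₄ + ε)) ≤ 0` on the sphere, hence inside (maximum principle for `‖exp (...)‖`), and for a given `z`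
choose `v` with `v e^{H₃ z} = ‖e^{H₃ z}‖`. So `‖G₁ z‖^σ ‖h z‖ ≤ e^{2ε} (Re (H₄ z) + ε)`; let `ε → 0`. -/
def S_PT2 : Prop := ∀ (G₁ G₂ h H₄ : ℂ → ℂ) (r ρ σ : ℝ), 0 < r → r < ρ → 0 ≤ σ →
  ContinuousOn G₁ (closedBall 0 r) → DifferentiableOn ℂ G₁ (ball 0 r) →
  ContinuousOn G₂ (closedBall 0 ρ) → DifferentiableOn ℂ G₂ (ball 0 ρ) →
  ContinuousOn h (closedBall 0 ρ) → DifferentiableOn ℂ h (ball 0 ρ) →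
  (∀ z : ℂ, ‖z‖ = r → ‖G₁ z‖ ≤ ‖G₂ z‖) → Differentiable ℂ H₄ →
  (∀ w : ℂ, ‖w‖ = ρ → ‖G₂ w‖ ^ σ * ‖h w‖ ≤ (H₄ w).re) →
  ∀ z : ℂ, ‖z‖ ≤ r → ‖G₁ z‖ ^ σ * ‖h z‖ ≤ (H₄ z).re

/-- **The pointwise bound** (uses `S_MQ`, `S_GNP`, `S_PT2`). `q = p - 1`, `c₁ = 1 - (2/3) η`, `u, Q` from `S_MQ`, `E` from `S_GNP` (`c₁`, `ρ`),
`G₁ = f² E`, `G₂ = f · Pr s ρ · g₀`, `h = (f - u g) Q`, `σ = q/2`, `r = c₁`. On `‖z‖ = c₁`: `‖G₁‖ ≤ ‖f‖ ‖g‖ ‖E‖ = ‖f‖ ‖g₀‖ ‖Pm s‖ ‖E‖ ≤ ‖G₂‖`. On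
`‖w‖ = ρ`: `‖Pr s ρ‖ = ‖Pm s‖` (`Bas.norm_Pr`), so `‖G₂‖ = ‖f‖ ‖g‖` and `‖h‖ = ‖g₀‖ ‖F - u Pm s‖ ‖Q‖ ≤ 22 (‖g‖ - ‖f‖)`. At `z₀` (if `‖f z₀‖ > ‖g z₀‖`,
otherwise the left side is `0 ≤ ‖G₁‖^σ ‖h‖`): `‖G₁‖^σ = ‖f‖^q ‖E‖^{q/2} ≥ ‖f‖^q exp (n q (ρ - c₁)(ρ - ‖z₀‖)/32)`, `ρ - c₁ ≥ η/6`, and
`‖h‖ ≥ (‖f‖ - ‖g‖) exp (-832 (1+n)(ρ - ‖z₀‖)/η)`. -/
def S_CO2 : Prop := ∀ (f g F g₀ H₄ : ℂ → ℂ) (s : Multiset ℂ) (η ρ p : ℝ) (z₀ : ℂ), 2 ≤ p →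
  0 < η → η ≤ 1 / 2 → 1 - η / 2 ≤ ρ → ρ ≤ 1 - η / 3 → Pair (1 - η) s F →
  DifferentiableOn ℂ g₀ (ball 0 1) →
  (∀ z ∈ ball (0 : ℂ) 1, g z = Pm s z * g₀ z ∧ f z = F z * g₀ z) → Differentiable ℂ H₄ →
  (∀ w : ℂ, ‖w‖ = ρ →
    22 * ((‖g w‖ * ‖f w‖) ^ ((p - 1) / 2) * (‖g w‖ - ‖f w‖)) ≤ (H₄ w).re) →
  ‖z₀‖ ≤ 1 - η →
  Real.exp (((p - 1) * η * Multiset.card s / 192 - 832 * (1 + (Multiset.card s : ℝ)) / η) *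
    (ρ - ‖z₀‖)) * (‖f z₀‖ ^ (p - 1) * max (‖f z₀‖ - ‖g z₀‖) 0) ≤ (H₄ z₀).re

/-- **An elementary inequality.** For `y > 0` let `x = m e^t`, `y = m e^{-t}`, `m = √(x y)`, `t ≥ 0`: the claim is `p sinh t ≤ sinh (p t)`, and
`sinh (p t) - p sinh t` has the derivative `p (cosh (p t) - cosh t) ≥ 0`. For `y = 0`: trivial (`0 ^ 0 = 1` if `p = 1`). -/
def S_EL : Prop := ∀ x y p : ℝ, 0 ≤ y → y ≤ x → 1 ≤ p →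
  p * ((x * y) ^ ((p - 1) / 2) * (x - y)) ≤ x ^ p - y ^ p

/-- **Integral of a harmonic function.** Polar coordinates (compare `Pool/Agent/KRB/Pol.lean`, `Pool/Agent/KRB/Rad.lean`); the average of `Re H`
over each circle `‖z‖ = r` is `Re (H 0)` (mean value property, `circleAverage` lemmas), so the integral is
`2π Re (H 0) ∫_0^c r e^{-l (ρ - r)} dr ≤ 2π Re (H 0) e^{-l (ρ - c)}/l` (`Re (H 0) ≥ 0` is the average of `Re H` over `‖w‖ = ρ`). -/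
def S_INT : Prop := ∀ (H : ℂ → ℂ) (l c ρ : ℝ), 0 < l → 0 < c → c < ρ → ρ ≤ 1 →
  Differentiable ℂ H → (∀ w : ℂ, ‖w‖ = ρ → 0 ≤ (H w).re) →
  ∫ z in closedBall (0 : ℂ) c, Real.exp (-(l * (ρ - ‖z‖))) * (H z).re ≤
    2 * Real.pi / l * Real.exp (-(l * (ρ - c))) * (H 0).re

/-- **Lower bound for `κ_p`** (uses `S_FCT`, `S_CO2`, `S_EL`, `S_INT`, `Pool.Agent.KRB.pol : S_POL`; compare
`Pool/Agent/KRB/Low0.lean`, in particular `LOW0Aux.tangent`, `nrm_le`, `nrm_le_of_le`, and `Pool.Agent.KRB.LOWAux.mono`). Let `η = min (1 - c) (1/2)`; then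
`η √p ≥ 1150` (if `η = 1/2`: `√p ≥ 2300 (since 1 > 1 - c ≥ 2300/√p)`), `q = p - 1 ≥ p/2`, so `q η² ≥ 661250`. It suffices to show `KP p (1 - η)`; rename
`c = 1 - η`. Let `f, g` be given. If `g = 0` in the disc, then `f = 0` on `An c`, hence in the disc. Apply `S_FCT`. If `f = u g`: equality. Otherwise
let `n = card s`. If `n = 0` then `Pm s = 1`, `‖F‖ < 1` on `An c`, so `‖F‖ ≤ 1` in the disc (maximum principle) and `‖f‖ ≤ ‖g‖`. Let `n ≥ 1`,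
`l = q η/384`, `D z = ‖g z‖^p - ‖f z‖^p`, `I₊ = ∫_{closedBall 0 c} max (-D) 0`. Claim: for `1 - η/2 < ρ < 1 - η/3`,
`(l/(44π)) e^{l η/2} I₊ ≤ circleAverage D 0 ρ`. Proof: for `ε > 0` let `H₄` be entire with `|Re H₄ - ((22/p) D + ε)| ≤ ε` on `‖w‖ = ρ` (`Bas.approx`); then
`Re H₄ ≥ (22/p) D ≥ 22 (‖g‖‖f‖)^{q/2} (‖g‖ - ‖f‖) ≥ 0` there (`S_EL`). The exponent in `S_CO2` is `≥ l (ρ - ‖z₀‖)`: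
`832 (1+n)/η ≤ 1664 n/η ≤ q η n/384` since `q η² ≥ 638976`. So for `‖z‖ ≤ c`:
`max (-D z) 0 ≤ p ‖f‖^q max (‖f‖ - ‖g‖) 0 ≤ p e^{-l (ρ - ‖z‖)} Re (H₄ z)`. Integrate (`S_INT`): `I₊ ≤ p (2π/l) e^{-l (ρ - c)} Re (H₄ 0)`, `ρ - c ≥ η/2`, and
`Re (H₄ 0) = circleAverage (Re H₄) ≤ (22/p) circleAverage D + 2ε`; let `ε → 0`. Now `S_POL` (`a = 1 - η/2`, `b = 1 - η/3`,
`M = (l/(44π)) e^{l η/2} I₊`): `∫_{a<‖z‖<b} D ≥ M π η/6 = (l η/264) e^{lη/2} I₊ ≥ I₊` (`l η = q η²/384 ≥ 264`). So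
`∫_{ball} D = ∫_{closedBall c} D + ∫_{An c} D ≥ -I₊ + ∫_{a<‖z‖<b} D ≥ 0`. -/
def S_LW : Prop := ∀ p c : ℝ, 2 ≤ p → 0 < c → c < 1 → c ≤ 1 - 2300 / √p → KP p c

end Pool.Agent.KRE
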